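import Pool.Agent.H41.S5.Swap

/-!
# (5.1): the base, and STAR from tameness and finiteness
-/

set_option autoImplicit false

open Set Filter

namespace Pool.Agent.H41.S5

open Pool.Agent.H41.HI Pool.Agent.H41.RLH Pool.Agent.H75.HCI

variable {C : Type} {M : List ℕ → C} {N : Subgroup (Equiv.Perm ℕ)}

/-- all free types are tame and there are finitely many of them -/
structure QH (H : HSys M N) (r : ℕ) : Prop where
  tame : ∀ (D : Finset ℕ) (V : Ultrafilter (ℕ → ℕ)), FD H D V → Tame M D V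
  fin : ∀ k ≤ r, ∃ F : Set (Ultrafilter (ℕ → ℕ)), F.Finite ∧
    (∀ V ∈ F, FD H (Finset.range k) V) ∧
    ∀ V, FD H (Finset.range k) V → ∃ V' ∈ F, EqOn M (Finset.range k) V V'

variable {H : HSys M N} {B X : List ℕ} {D D' : Finset ℕ} {V U : Ultrafilter (ℕ → ℕ)} {r : ℕ}

/-- a list which contains finitely many lists -/
lemma exists_list {α : Type} {F : Set α} (hF : F.Finite) (b : α → List ℕ) :
    ∃ B : List ℕ, ∀ a ∈ F, b a ⊆ B := by
  refine ⟨hF.toFinset.toList.flatMap b, fun a ha x hx => ?_⟩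
  rw [List.mem_flatMap]
  exact ⟨a, by simpa using ha, hx⟩

/-- the points of a word -/
def pts {ι : Type} (w : List (ℕ ⊕ ι)) : List ℕ := w.filterMap (Sum.elim some fun _ => none)

lemma mem_pts {ι : Type} {w : List (ℕ ⊕ ι)} {x : ℕ} : x ∈ pts w ↔ Sum.inl x ∈ w := by
  unfold pts
  rw [List.mem_filterMap]
  constructor
  · rintro ⟨q, hq, hq'⟩
    rcases q with a | d
    · have : a = x := by simpa using hq'
      rw [← this]
      exact hq
    · simp at hq'
  · intro h
    exact ⟨_, h, by simp⟩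

/-- separation and members for the coordinates `0, …, k - 1` -/
lemma base_one (Q : QH H r) {k : ℕ} (hk : k ≤ r) : ∃ B : List ℕ,
    (∀ V V' : Ultrafilter (ℕ → ℕ), FD H (Finset.range k) V → FD H (Finset.range k) V' →
      (∀ w, Wd {x | x ∈ B} (Finset.range k) w → tp M V w = tp M V' w) →
      EqOn M (Finset.range k) V V') ∧
    ∀ V : Ultrafilter (ℕ → ℕ), FD H (Finset.range k) V →
      ∃ V', Fr H B (Finset.range k) V' ∧ EqOn M (Finset.range k) V V' := by
  classical
  obtain ⟨F, hF, h1, h2⟩ := Q.fin k hk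
  -- the bases
  have hb : ∀ V : Ultrafilter (ℕ → ℕ), ∃ b : List ℕ, V ∈ F → Fr H b (Finset.range k) V := by
    intro V
    by_cases hV : V ∈ F
    · obtain ⟨b, hb⟩ := h1 V hV
      exact ⟨b, fun _ => hb⟩
    · exact ⟨[], fun h => absurd h hV⟩
  choose b hb using hb
  have hs : ∀ V : Ultrafilter (ℕ → ℕ) × Ultrafilter (ℕ → ℕ), ∃ s : List ℕ,
      (∀ w, Wd {x | x ∈ s} (Finset.range k) w → tp M V.1 w = tp M V.2 w) →
      EqOn M (Finset.range k) V.1 V.2 := by
    rintro ⟨V, V'⟩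
    by_cases h : EqOn M (Finset.range k) V V'
    · exact ⟨[], fun _ => h⟩
    · unfold EqOn at h
      push Not at h
      obtain ⟨w, hw, hw'⟩ := h
      exact ⟨pts w, fun h => absurd (h w ⟨fun x hx => mem_pts.2 hx, hw⟩) hw'⟩
  choose s hs using hs
  obtain ⟨B1, hB1⟩ := exists_list hF b
  obtain ⟨B2, hB2⟩ := exists_list (hF.prod hF) s
  refine ⟨B1 ++ B2, fun V V' hV hV' h => ?_, fun V hV => ?_⟩
  · obtain ⟨W, hW, hVW⟩ := h2 V hV
    obtain ⟨W', hW', hVW'⟩ := h2 V' hV'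
    refine hVW.trans (EqOn.trans (hs (W, W') fun w hw => ?_) hVW'.symm)
    have hw' : Wd {x | x ∈ B1 ++ B2} (Finset.range k) w :=
      hw.mono (fun x hx => List.mem_append_right _ (hB2 (W, W') ⟨hW, hW'⟩ hx))
        (Finset.Subset.refl _)
    rw [← hVW w hw.2, ← hVW' w hw.2]
    exact h w hw'
  · obtain ⟨W, hW, hVW⟩ := h2 V hV
    exact ⟨W, (hb W hW).mono_base fun x hx => List.mem_append_left _ (hB1 W hW hx), hVW⟩

lemma base_mono {k : ℕ} {B B' : List ℕ} (hB : B ⊆ B')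
    (h : (∀ V V' : Ultrafilter (ℕ → ℕ), FD H (Finset.range k) V → FD H (Finset.range k) V' →
      (∀ w, Wd {x | x ∈ B} (Finset.range k) w → tp M V w = tp M V' w) →
      EqOn M (Finset.range k) V V') ∧
    ∀ V : Ultrafilter (ℕ → ℕ), FD H (Finset.range k) V →
      ∃ V', Fr H B (Finset.range k) V' ∧ EqOn M (Finset.range k) V V') :
    (∀ V V' : Ultrafilter (ℕ → ℕ), FD H (Finset.range k) V → FD H (Finset.range k) V' →
      (∀ w, Wd {x | x ∈ B'} (Finset.range k) w → tp M V w = tp M V' w) →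
      EqOn M (Finset.range k) V V') ∧
    ∀ V : Ultrafilter (ℕ → ℕ), FD H (Finset.range k) V →
      ∃ V', Fr H B' (Finset.range k) V' ∧ EqOn M (Finset.range k) V V' := by
  refine ⟨fun V V' hV hV' h' => h.1 V V' hV hV' fun w hw => h' w ?_, fun V hV => ?_⟩
  · exact hw.mono (fun x hx => hB hx) (Finset.Subset.refl _)
  · obtain ⟨V', h1, h2⟩ := h.2 V hV
    exact ⟨V', h1.mono_base hB, h2⟩

/-- numbering of a finite set -/
lemma exists_num (D : Finset ℕ) : ∃ e k : ℕ → ℕ, (∀ i < D.card, e i ∈ D ∧ k (e i) = i) ∧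
    ∀ d ∈ D, k d < D.card ∧ e (k d) = d := by
  classical
  let φ := D.equivFin
  let e : ℕ → ℕ := fun i => if h : i < D.card then (φ.symm ⟨i, h⟩ : ℕ) else 0
  let k : ℕ → ℕ := fun d => if h : d ∈ D then (φ ⟨d, h⟩ : ℕ) else 0
  have he : ∀ i (h : i < D.card), e i = (φ.symm ⟨i, h⟩ : ℕ) := fun i h => dif_pos h
  have hk : ∀ d (h : d ∈ D), k d = (φ ⟨d, h⟩ : ℕ) := fun d h => dif_pos h
  refine ⟨e, k, fun i hi => ?_, fun d hd => ?_⟩
  · have h1 : (φ.symm ⟨i, hi⟩ : ℕ) ∈ D := (φ.symm ⟨i, hi⟩).2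
    rw [he i hi]
    refine ⟨h1, ?_⟩
    rw [hk _ h1]
    have h2 : (⟨(φ.symm ⟨i, hi⟩ : ℕ), h1⟩ : {x // x ∈ D}) = φ.symm ⟨i, hi⟩ := Subtype.ext rfl
    rw [h2, Equiv.apply_symm_apply]
  · have h1 : (φ ⟨d, hd⟩ : ℕ) < D.card := (φ ⟨d, hd⟩).2
    rw [hk d hd]
    refine ⟨h1, ?_⟩
    rw [he _ h1]
    have h2 : (⟨(φ ⟨d, hd⟩ : ℕ), h1⟩ : Fin D.card) = φ ⟨d, hd⟩ := Fin.ext rfl
    rw [h2, Equiv.symm_apply_apply]

lemma map_inr_mem {h : ℕ → ℕ} {w : List (ℕ ⊕ ℕ)} {P : ℕ → Prop}
    (hw : ∀ d, Sum.inr d ∈ w → P (h d)) : ∀ d, Sum.inr d ∈ w.map (Sum.map id h) → P d := by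
  intro d hd
  obtain ⟨q, hq, hq'⟩ := List.mem_map.1 hd
  rcases q with a | e
  · simp at hq'
  · have h1 : h e = d := by simpa using hq'
    rw [← h1]
    exact hw e hq

lemma map_map_sum {h k : ℕ → ℕ} {w : List (ℕ ⊕ ℕ)} (hw : ∀ d, Sum.inr d ∈ w → h (k d) = d) :
    (w.map (Sum.map id k)).map (Sum.map id h) = w := by
  rw [List.map_map]
  conv_rhs => rw [← List.map_id w]
  refine List.map_congr_left fun q hq => ?_
  rcases q with x | d
  · rfl
  · exact congrArg Sum.inr (hw d hq)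

/-- (5.1) -/
theorem exists_sep (hM : FinLab M) (Q : QH H r) : ∃ (B : List ℕ) (u : ℕ), Sep H r B ∧
    Mob H B {u} := by
  classical
  have hex : ∀ k : ℕ, ∃ B : List ℕ, k ≤ r →
    (∀ V V' : Ultrafilter (ℕ → ℕ), FD H (Finset.range k) V → FD H (Finset.range k) V' →
      (∀ w, Wd {x | x ∈ B} (Finset.range k) w → tp M V w = tp M V' w) →
      EqOn M (Finset.range k) V V') ∧
    ∀ V : Ultrafilter (ℕ → ℕ), FD H (Finset.range k) V →
      ∃ V', Fr H B (Finset.range k) V' ∧ EqOn M (Finset.range k) V V' := by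
    intro k
    by_cases hk : k ≤ r
    · obtain ⟨B, hB⟩ := base_one Q hk
      exact ⟨B, fun _ => hB⟩
    · exact ⟨[], fun h => absurd h hk⟩
  choose b hb using hex
  obtain ⟨B1, hB1⟩ := exists_list (Set.finite_Iic r) b
  -- a mobile point
  have hex : ∃ n : ℕ, ∃ a : List ℕ, a.length = n ∧ H.sup a ≠ ∅ := by
    obtain ⟨a, ha⟩ := H.unb
    exact ⟨a.length, a, rfl, ha⟩
  obtain ⟨a, ha1, ha2⟩ := Nat.find_spec hex
  have hmin : ∀ a' : List ℕ, a'.length < a.length → H.sup a' = ∅ := by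
    intro a' h1
    by_contra h2
    exact Nat.find_min hex (by rw [← ha1]; exact h1) ⟨a', rfl, h2⟩
  obtain ⟨x, a', rfl⟩ : ∃ x a', a = x :: a' := by
    rcases a with _ | ⟨x, a'⟩
    · exact absurd H.nil ha2
    · exact ⟨x, a', rfl⟩
  have ha' : H.sup a' = ∅ := hmin a' (by simp)
  have hmob : ∀ d ∈ ({x} : Finset ℕ), ¬ H.sup (d :: a') ⊆ H.sup a' := by
    intro d hd hs
    rw [Finset.mem_singleton] at hd
    subst hd
    rw [ha', Finset.subset_empty] at hs
    exact ha2 hs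
  obtain ⟨p, -, -, -, -, hp⟩ := exists_copy H a' a' (fun _ h => h) {x} hmob (B1 ++ a')
  refine ⟨B1 ++ a', p.1 x, ⟨?_, ?_, Q.tame⟩, ?_⟩
  · intro D hD V V' hV hV' h
    obtain ⟨e, k, h1, h2⟩ := exists_num D
    have hm : MapsTo e (Finset.range D.card) D := fun i hi =>
      Finset.mem_coe.2 (h1 i (Finset.mem_range.1 (Finset.mem_coe.1 hi))).1
    have hi : InjOn e (Finset.range D.card) := fun i hi j hj hij => by
      have e1 := (h1 i (Finset.mem_range.1 (Finset.mem_coe.1 hi))).2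
      have e2 := (h1 j (Finset.mem_range.1 (Finset.mem_coe.1 hj))).2
      rw [← e1, ← e2, hij]
    have h3 := (base_mono (fun y hy => List.mem_append_left a' (hB1 D.card hD hy))
      (hb D.card hD)).1 _ _ (hV.reindex hm hi) (hV'.reindex hm hi) fun w hw => by
        rw [tp_reindex hM, tp_reindex hM]
        exact h _ (wd_reindex hw hm)
    intro w hw
    have h4 := h3 (w.map (Sum.map id k)) (map_inr_mem (P := fun d => d ∈ Finset.range D.card)
      fun d hd => Finset.mem_range.2 (h2 d (hw d hd)).1)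
    rw [tp_reindex hM, tp_reindex hM, map_map_sum fun d hd => (h2 d (hw d hd)).2] at h4
    exact h4
  · intro D hD V hV
    obtain ⟨e, k, h1, h2⟩ := exists_num D
    have hm : MapsTo e (Finset.range D.card) D := fun i hi =>
      Finset.mem_coe.2 (h1 i (Finset.mem_range.1 (Finset.mem_coe.1 hi))).1
    have hi : InjOn e (Finset.range D.card) := fun i hi j hj hij => by
      have e1 := (h1 i (Finset.mem_range.1 (Finset.mem_coe.1 hi))).2
      have e2 := (h1 j (Finset.mem_range.1 (Finset.mem_coe.1 hj))).2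
      rw [← e1, ← e2, hij]
    have hmk : MapsTo k D (Finset.range D.card) := fun d hd =>
      Finset.mem_coe.2 (Finset.mem_range.2 (h2 d (Finset.mem_coe.1 hd)).1)
    have hik : InjOn k D := fun i hi j hj hij => by
      rw [← (h2 i (Finset.mem_coe.1 hi)).2, ← (h2 j (Finset.mem_coe.1 hj)).2, hij]
    obtain ⟨V1, h3, h4⟩ := (base_mono (fun y hy => List.mem_append_left a' (hB1 D.card hD hy))
      (hb D.card hD)).2 _ (hV.reindex hm hi)
    refine ⟨V1.map fun y d => y (k d), h3.reindex hmk hik, fun w hw => ?_⟩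
    have h5 := h4 (w.map (Sum.map id k)) (map_inr_mem (P := fun d => d ∈ Finset.range D.card)
      fun d hd => Finset.mem_range.2 (h2 d (hw d hd)).1)
    rw [tp_reindex hM, map_map_sum fun d hd => (h2 d (hw d hd)).2] at h5
    rw [h5, tp_reindex hM]
  · intro d hd hs
    rw [Finset.mem_singleton] at hd
    subst hd
    refine hp x (Finset.mem_singleton_self x) (Finset.Subset.trans (H.mono _ _ fun z hz => ?_) hs)
    rcases List.mem_cons.1 hz with rfl | hz
    · exact List.mem_cons_self ..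
    · exact List.mem_cons_of_mem _ (List.mem_append_right _ hz)

/-- finitely many labels of lists of each length -/
lemma finLab_of_small (hs : SmallE M (id : ℕ → ℕ) (univ : Set ℕ)) : FinLab M := by
  intro n
  refine (fin_labels hs n).subset ?_
  rintro y ⟨l, h1, h2⟩
  exact ⟨l, h1, fun x _ => mem_univ x, h2⟩

/-- STAR from tameness and finiteness. -/
theorem star_of_qh {r : ℕ} (hAr : Ar r M) (hs : SmallE M (id : ℕ → ℕ) (univ : Set ℕ))
    (H : HSys M (LFin M)) (Q : QH H r) : False := by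
  have hM := finLab_of_small hs
  obtain ⟨B, u, S, hu⟩ := exists_sep hM Q
  exact star_core hM hAr hs H S hu

end Pool.Agent.H41.S5
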