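import Pool.Agent.H41.S5.Base
import Pool.Agent.H71.HCI.TargetsU

/-!
# Section 5 from `Q(k)`
-/

set_option autoImplicit false

open Set Filter

namespace Pool.Agent.H41.S5

open Pool.Agent.H41.HI Pool.Agent.H41.RLH Pool.Agent.H75.HCI

variable {C : Type} {M : List ℕ → C} {N : Subgroup (Equiv.Perm ℕ)}

lemma typ_eq_tp {I : Type} (V : Ultrafilter (I → ℕ)) (w : List (ℕ ⊕ I)) :
    Pool.Agent.H16.FK.typ M V w = tp M V w := rfl

/-- words with coordinates in the range of a map -/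
lemma exists_word {I J : Type} (ψ : I → J) (w : List (ℕ ⊕ J))
    (hw : ∀ d, Sum.inr d ∈ w → ∃ i, ψ i = d) :
    ∃ w1 : List (ℕ ⊕ I), w1.map (Sum.map id ψ) = w := by
  induction w with
  | nil => exact ⟨[], rfl⟩
  | cons q w ih =>
    obtain ⟨w1, h1⟩ := ih fun d hd => hw d (List.mem_cons_of_mem _ hd)
    rcases q with x | d
    · exact ⟨Sum.inl x :: w1, by simp [h1]⟩
    · obtain ⟨i, hi⟩ := hw d (List.mem_cons_self ..)
      exact ⟨Sum.inr i :: w1, by simp [h1, hi]⟩

lemma sup_comm (H : HSys M N) (x : ℕ) (B : List ℕ) : H.sup (B ++ [x]) = H.sup (x :: B) := by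
  refine Finset.Subset.antisymm (H.mono _ _ fun z hz => ?_) (H.mono _ _ fun z hz => ?_)
  · rcases List.mem_append.1 hz with h | h
    · exact List.mem_cons_of_mem _ h
    · rw [List.mem_singleton.1 h]
      exact List.mem_cons_self ..
  · rcases List.mem_cons.1 hz with h | h
    · rw [h]
      exact List.mem_append_right _ (List.mem_singleton_self x)
    · exact List.mem_append_left _ h

/-- restriction to the numbered coordinates -/
lemma fku_of_fd {H : HSys M N} {D : Finset ℕ} {V : Ultrafilter (ℕ → ℕ)} (hV : FD H D V)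
    {I : Type} (e : I → ℕ) (he : ∀ i, e i ∈ D) (hi : Function.Injective e) :
    Pool.Agent.H16.FK.re V e ∈ Pool.Agent.H16.FK.FKU H I := by
  obtain ⟨B, h1, h2⟩ := hV
  refine ⟨B, ?_, fun X hX => ?_⟩
  · unfold Pool.Agent.H16.FK.Ij Pool.Agent.H16.FK.re
    rw [Ultrafilter.coe_map, Filter.eventually_map]
    refine h1.mono fun y hy i j hij => hi ?_
    exact hy (Finset.mem_coe.2 (he i)) (Finset.mem_coe.2 (he j)) hij
  · unfold Pool.Agent.H16.FK.re
    rw [Ultrafilter.coe_map, Filter.eventually_map]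
    refine (h2 X hX).mono fun y hy i => ?_
    rw [sup_comm]
    exact hy (e i) (he i)

lemma np_of_np {D : Finset ℕ} {V : Ultrafilter (ℕ → ℕ)} (hV : NP D V)
    {I : Type} (e : I → ℕ) (he : ∀ i, e i ∈ D) :
    Pool.Agent.H16.FK.NP (Pool.Agent.H16.FK.re V e) := by
  intro i a
  unfold Pool.Agent.H16.FK.re
  rw [Ultrafilter.coe_map, Filter.eventually_map]
  exact (hV.2 a).mono fun y hy => hy (e i) (he i)

/-- a numbering by `Fin` -/
lemma exists_fin (D : Finset ℕ) : ∃ e : Fin D.card → ℕ, (∀ i, e i ∈ D) ∧ Function.Injective e ∧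
    ∀ d ∈ D, ∃ i, e i = d := by
  refine ⟨fun i => (D.equivFin.symm i : ℕ), fun i => (D.equivFin.symm i).2, fun i j hij => ?_,
    fun d hd => ⟨D.equivFin ⟨d, hd⟩, ?_⟩⟩
  · exact D.equivFin.symm.injective (Subtype.ext hij)
  · simp

/-- the product -/
lemma tp_prd_typ (hM : FinLab M) {D D' : Finset ℕ} (hd : Disjoint D D') {I J : Type}
    (e : I → ℕ) (he : ∀ i, e i ∈ D) (e' : J → ℕ) (he' : ∀ j, e' j ∈ D')
    (V U : Ultrafilter (ℕ → ℕ)) (w : List (ℕ ⊕ (I ⊕ J))) :
    Pool.Agent.H16.FK.typ M (Pool.Agent.H16.FK.prU (Pool.Agent.H16.FK.re V e)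
      (Pool.Agent.H16.FK.re U e')) w = tp M (prd D V U) (w.map (Sum.map id (Sum.elim e e'))) := by
  rw [typ_eq_tp]
  refine tp_eq ?_
  have h1 := tp_spec hM (prd D V U) (w.map (Sum.map id (Sum.elim e e')))
  rw [prd_iff] at h1
  change ∀ᶠ x in (V : Filter (ℕ → ℕ)), ∀ᶠ y in (U : Filter (ℕ → ℕ)),
    M (ev (Sum.elim (x ∘ e) (y ∘ e')) w) = _
  refine h1.mono fun x hx => hx.mono fun y hy => ?_
  rw [← hy]
  congr 1
  unfold ev
  rw [List.map_map]
  refine List.map_congr_left fun q _ => ?_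
  rcases q with a | i | j
  · rfl
  · change x (e i) = mix D x y (e i)
    unfold mix
    rw [if_pos (he i)]
  · change y (e' j) = mix D x y (e' j)
    unfold mix
    rw [if_neg fun h => Finset.disjoint_left.1 hd h (he' j)]

/-- QH from `Q(k)` for all `k` -/
theorem qh_of_qq (hM : FinLab M) (H : HSys M N) (hQ : ∀ k, Pool.Agent.H16.FK.QQ H k) (r : ℕ) :
    QH H r := by
  classical
  constructor
  · intro D V hV D' U hd hU w hw
    obtain ⟨e, h1, h2, h3⟩ := exists_fin D
    obtain ⟨e', h1', h2', h3'⟩ := exists_fin D'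
    have hT := (hQ D.card).1 _ (fku_of_fd hV e h1 h2)
    have hT1 := hT (Fin D'.card) (Pool.Agent.H16.FK.re U e') (np_of_np hU e' h1')
    obtain ⟨w1, hw1⟩ := exists_word (Sum.elim e e') w fun d hd => by
      rcases Finset.mem_union.1 (hw d hd) with h | h
      · obtain ⟨i, hi⟩ := h3 d h
        exact ⟨Sum.inl i, hi⟩
      · obtain ⟨i, hi⟩ := h3' d h
        exact ⟨Sum.inr i, hi⟩
    have h4 := congrFun hT1 w1
    rw [tp_prd_typ hM hd e h1 e' h1' V U w1, hw1] at h4
    rw [h4]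
    have h5 : Pool.Agent.H16.FK.typ M (Pool.Agent.H16.FK.re (Pool.Agent.H16.FK.prU
        (Pool.Agent.H16.FK.re U e') (Pool.Agent.H16.FK.re V e)) Sum.swap) w1 =
        Pool.Agent.H16.FK.typ M (Pool.Agent.H16.FK.prU
        (Pool.Agent.H16.FK.re U e') (Pool.Agent.H16.FK.re V e)) (w1.map (Sum.map id Sum.swap)) := by
      rw [typ_eq_tp, typ_eq_tp]
      exact tp_reindex hM Sum.swap _ w1
    rw [h5, tp_prd_typ hM hd.symm e' h1' e h1 U V, List.map_map]
    congr 1
    rw [← hw1]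
    refine List.map_congr_left fun q _ => ?_
    rcases q with a | i | j <;> rfl
  · intro k _
    have hfin := (hQ k).2
    have hex : ∀ τ : List (ℕ ⊕ Fin k) → C, ∃ V : Ultrafilter (Fin k → ℕ),
        (∃ V' ∈ Pool.Agent.H16.FK.FKU H (Fin k), Pool.Agent.H16.FK.typ M V' = τ) →
          V ∈ Pool.Agent.H16.FK.FKU H (Fin k) ∧ Pool.Agent.H16.FK.typ M V = τ := by
      intro τ
      by_cases h : ∃ V' ∈ Pool.Agent.H16.FK.FKU H (Fin k), Pool.Agent.H16.FK.typ M V' = τ
      · obtain ⟨V', h1, h2⟩ := h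
        exact ⟨V', fun _ => ⟨h1, h2⟩⟩
      · exact ⟨pure fun _ => 0, fun h' => absurd h' h⟩
    choose Vt hVt using hex
    let ext : (Fin k → ℕ) → ℕ → ℕ := fun y n => if h : n < k then y ⟨n, h⟩ else 0
    have hext : ∀ (y : Fin k → ℕ) (i : Fin k), ext y i = y i := fun y i => dif_pos i.2
    let W : (List (ℕ ⊕ Fin k) → C) → Ultrafilter (ℕ → ℕ) := fun τ => (Vt τ).map ext
    refine ⟨W '' {τ | ∃ V ∈ Pool.Agent.H16.FK.FKU H (Fin k), Pool.Agent.H16.FK.typ M V = τ},
      hfin.image W, ?_, fun V hV => ?_⟩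
    · rintro _ ⟨τ, hτ, rfl⟩
      obtain ⟨⟨B, h1, h2⟩, -⟩ := hVt τ hτ
      refine ⟨B, ?_, fun X hX => ?_⟩
      · change ∀ᶠ y in (Filter.map ext (Vt τ : Filter (Fin k → ℕ))), _
        rw [Filter.eventually_map]
        refine h1.mono fun y hy a ha b hb hab => ?_
        rw [Finset.mem_coe, Finset.mem_range] at ha hb
        have h3 : ext y a = y ⟨a, ha⟩ := dif_pos ha
        have h4 : ext y b = y ⟨b, hb⟩ := dif_pos hb
        rw [h3, h4] at hab
        exact congrArg Fin.val (hy hab)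
      · change ∀ᶠ y in (Filter.map ext (Vt τ : Filter (Fin k → ℕ))), _
        rw [Filter.eventually_map]
        refine (h2 X hX).mono fun y hy d hd => ?_
        rw [Finset.mem_range] at hd
        have h3 : ext y d = y ⟨d, hd⟩ := dif_pos hd
        rw [h3, ← sup_comm]
        exact hy ⟨d, hd⟩
    · have h1 : Pool.Agent.H16.FK.re V (fun i : Fin k => (i : ℕ)) ∈
          Pool.Agent.H16.FK.FKU H (Fin k) :=
        fku_of_fd hV _ (fun i => Finset.mem_range.2 i.2) Fin.val_injective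
      refine ⟨_, ⟨_, ⟨_, h1, rfl⟩, rfl⟩, fun w hw => ?_⟩
      obtain ⟨-, h2⟩ := hVt _ ⟨_, h1, rfl⟩
      obtain ⟨w1, hw1⟩ := exists_word (fun i : Fin k => (i : ℕ)) w fun d hd =>
        ⟨⟨d, Finset.mem_range.1 (hw d hd)⟩, rfl⟩
      have h3 : tp M V w = Pool.Agent.H16.FK.typ M
          (Pool.Agent.H16.FK.re V (fun i : Fin k => (i : ℕ))) w1 := by
        rw [← hw1, typ_eq_tp]
        exact (tp_reindex hM (fun i : Fin k => (i : ℕ)) V w1).symm
      have h4 : tp M (W (Pool.Agent.H16.FK.typ M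
          (Pool.Agent.H16.FK.re V (fun i : Fin k => (i : ℕ))))) w =
          Pool.Agent.H16.FK.typ M (Vt (Pool.Agent.H16.FK.typ M
          (Pool.Agent.H16.FK.re V (fun i : Fin k => (i : ℕ))))) w1 := by
        refine tp_eq ?_
        change ∀ᶠ y in (Filter.map ext (Vt _ : Filter (Fin k → ℕ))), _
        rw [Filter.eventually_map]
        refine (tp_spec hM _ w1).mono fun y hy => ?_
        rw [typ_eq_tp, ← hy, ← hw1, ← ev_reindex]
        congr 1
        unfold ev
        refine List.map_congr_left fun q _ => ?_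
        rcases q with a | i
        · rfl
        · exact hext y i
      rw [h3, h4, h2]

/-- S5: section 5. -/
theorem pf_S5 : Pool.Agent.H71.HCI.T_S5 := by
  intro r C M hAr hM hs H hQ
  exact star_of_qh hAr hs H (qh_of_qq (finLab_of_small hs) H hQ r)

/-- STAR from `Q(k)`. -/
theorem star_of_qall (hQ : Pool.Agent.H71.HCI.T_QALL) (r : ℕ) : T_STAR r :=
  Pool.Agent.H71.HCI.star_of hQ pf_S5 r

end Pool.Agent.H41.S5
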