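import Pool.Agent.H41.S5.Edge
import Pool.Agent.H75.HCI.FIN

/-!
# (5.5): the components are finite
-/

set_option autoImplicit false

open Set Filter

namespace Pool.Agent.H41.S5

open Pool.Agent.H41.HI Pool.Agent.H41.RLH Pool.Agent.H75.HCI

variable {C : Type} {M : List ℕ → C} {N : Subgroup (Equiv.Perm ℕ)}

/-- adjacent points -/
def Adj (H : HSys M N) (r : ℕ) (B : List ℕ) (x y : ℕ) : Prop :=
  ∃ e, Edge H r B e ∧ x ∈ e ∧ y ∈ e

/-- adjacent inside `A` -/
def AdjIn (H : HSys M N) (r : ℕ) (B : List ℕ) (A : Finset ℕ) (x y : ℕ) : Prop :=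
  ∃ e, Edge H r B e ∧ e ⊆ A ∧ x ∈ e ∧ y ∈ e

/-- the component of `u` -/
def comp (H : HSys M N) (r : ℕ) (B : List ℕ) (u : ℕ) : Set ℕ :=
  {x | Relation.ReflTransGen (Adj H r B) u x}

variable {H : HSys M N} {B X : List ℕ} {D D' : Finset ℕ} {V U : Ultrafilter (ℕ → ℕ)} {r : ℕ}

lemma AdjIn.mono {A A' : Finset ℕ} {x y : ℕ} (h : AdjIn H r B A x y) (hA : A ⊆ A') :
    AdjIn H r B A' x y := by
  obtain ⟨e, h1, h2, h3⟩ := h
  exact ⟨e, h1, h2.trans hA, h3⟩

lemma exists_step {R : ℕ → ℕ → Prop} {u x : ℕ} {A : Set ℕ} (h : Relation.ReflTransGen R u x)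
    (hu : u ∈ A) (hx : x ∉ A) : ∃ y z, y ∈ A ∧ z ∉ A ∧ R y z := by
  induction h with
  | refl => exact absurd hu hx
  | @tail b c _ hbc ih =>
    by_cases hb : b ∈ A
    · exact ⟨b, c, hb, hx, hbc⟩
    · exact ih hb

/-- large finite connected sets in an infinite component -/
lemma grow {u : ℕ} (hu : Mob H B {u}) (hinf : (comp H r B u).Infinite) (n : ℕ) :
    ∃ A : Finset ℕ, u ∈ A ∧ n ≤ A.card ∧ Mob H B A ∧
      ∀ x ∈ A, Relation.ReflTransGen (AdjIn H r B A) u x := by
  classical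
  induction n with
  | zero =>
    refine ⟨{u}, Finset.mem_singleton_self u, Nat.zero_le _, hu, fun x hx => ?_⟩
    rw [Finset.mem_singleton.1 hx]
  | succ n ih =>
    obtain ⟨A, h1, h2, h3, h4⟩ := ih
    obtain ⟨x, hx, hxA⟩ := hinf.exists_notMem_finset A
    obtain ⟨y, z, hy, hz, e, he, hye, hze⟩ := exists_step (A := (A : Set ℕ)) hx
      (Finset.mem_coe.2 h1) (fun h => hxA (Finset.mem_coe.1 h))
    have hyA : y ∈ A := Finset.mem_coe.1 hy
    have hzA : z ∉ A := fun h => hz (Finset.mem_coe.2 h)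
    have hmono : ∀ a b, Relation.ReflTransGen (AdjIn H r B A) a b →
        Relation.ReflTransGen (AdjIn H r B (A ∪ e)) a b := fun a b hab =>
      Relation.ReflTransGen.mono (r := AdjIn H r B A) (p := AdjIn H r B (A ∪ e))
        (fun _ _ h => AdjIn.mono h Finset.subset_union_left) a b hab
    refine ⟨A ∪ e, Finset.mem_union_left _ h1, ?_, ?_, ?_⟩
    · have h5 : A ⊂ A ∪ e := by
        refine ⟨Finset.subset_union_left, fun h => hzA ?_⟩
        exact h (Finset.mem_union_right _ hze)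
      have := Finset.card_lt_card h5
      omega
    · intro d hd
      rcases Finset.mem_union.1 hd with h | h
      · exact h3 d h
      · exact he.1 d h
    · intro a ha
      rcases Finset.mem_union.1 ha with h | h
      · exact hmono _ _ (h4 a h)
      · exact (hmono _ _ (h4 y hyA)).tail ⟨e, he, Finset.subset_union_right, hye, h⟩

/-- transport of edges -/
lemma Edge.transport (hM : FinLab M) {e : Finset ℕ} (he : Edge H r B e) {g k : ℕ → ℕ}
    (hk : ∀ x ∈ e, k (g x) = x) (hkB : ∀ x ∈ B, k x = x)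
    (hl : ∀ l : List ℕ, (∀ x ∈ l, x ∈ B ∨ x ∈ e.image g) → M (l.map k) = M l)
    (hmob : Mob H B (e.image g)) : Edge H r B (e.image g) := by
  refine ⟨hmob, Finset.card_image_le.trans he.2.1, ?_⟩
  have h1 : (e.image g).image k = e := by
    ext x
    rw [Finset.mem_image]
    constructor
    · rintro ⟨y, hy, rfl⟩
      obtain ⟨a, ha, rfl⟩ := Finset.mem_image.1 hy
      rw [hk a ha]
      exact ha
    · intro hx
      exact ⟨g x, Finset.mem_image_of_mem _ hx, hk x hx⟩
  refine Indec.reindex hM (h := k) ?_ hkB hl (by rw [h1]; exact he.2.2)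
  intro a ha b hb hab
  obtain ⟨a', ha', rfl⟩ := Finset.mem_image.1 (Finset.mem_coe.1 ha)
  obtain ⟨b', hb', rfl⟩ := Finset.mem_image.1 (Finset.mem_coe.1 hb)
  rw [hk a' ha', hk b' hb'] at hab
  rw [hab]

lemma mob_image {p : Equiv.Perm ℕ × Equiv.Perm ℕ} (hp : p ∈ H.K) (hB : ∀ x ∈ B, p.1 x = x)
    {d : ℕ} (hd : ¬ H.sup (d :: B) ⊆ H.sup B) : ¬ H.sup (p.1 d :: B) ⊆ H.sup B := by
  intro hs
  apply hd
  intro n hn
  have h1 := (H.eqv p hp _ n).1 hn
  rw [map_cons_fix hB] at h1
  rw [H.eqv p hp]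
  have h2 : B.map p.1 = B := by
    conv_rhs => rw [← List.map_id B]
    exact List.map_congr_left fun x hx => hB x hx
  rw [h2]
  exact hs h1

lemma inv_mem (H : HSys M N) {p : Equiv.Perm ℕ × Equiv.Perm ℕ} (hp : p ∈ H.K) : p⁻¹ ∈ H.K :=
  H.K.inv_mem hp

/-- the image of an edge under the group -/
lemma Edge.image (hM : FinLab M) {e : Finset ℕ} (he : Edge H r B e)
    {p : Equiv.Perm ℕ × Equiv.Perm ℕ} (hp : p ∈ H.K) (hB : ∀ x ∈ B, p.1 x = x) :
    Edge H r B (e.image p.1) := by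
  have hBi : ∀ x ∈ B, p.1.symm x = x := fun x hx => by
    rw [Equiv.symm_apply_eq, hB x hx]
  refine he.transport hM (k := p.1.symm) (fun x _ => p.1.symm_apply_apply x) hBi
    (fun l _ => ?_) ?_
  · have h1 := H.aut _ (inv_mem H hp) l
    exact h1
  · intro d hd
    obtain ⟨a, ha, rfl⟩ := Finset.mem_image.1 hd
    exact mob_image hp hB (he.1 a ha)

/-- no edge meets several independent copies -/
lemma edge_in (hM : FinLab M) (S : Sep H r B) {G : ℕ → Finset ℕ} {Xs : ℕ → List ℕ}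
    (hBX : ∀ t, B ⊆ Xs t) (hGX : ∀ s t, s < t → ∀ x ∈ G s, x ∈ Xs t)
    (hmob : ∀ t, ∀ d ∈ G t, ¬ H.sup (d :: B) ⊆ H.sup (Xs t)) {e : Finset ℕ}
    (he : Edge H r B e) (hsub : ∀ x ∈ e, ∃ t, x ∈ G t) : ∃ t, e ⊆ G t := by
  classical
  rcases e.eq_empty_or_nonempty with rfl | hne
  · exact ⟨0, Finset.empty_subset _⟩
  have : ∀ x : ℕ, ∃ t, x ∈ e → x ∈ G t := by
    intro x
    by_cases hx : x ∈ e
    · obtain ⟨t, ht⟩ := hsub x hx
      exact ⟨t, fun _ => ht⟩
    · exact ⟨0, fun h => absurd h hx⟩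
  choose τ hτ using this
  obtain ⟨x0, hx0, hmax⟩ := Finset.exists_max_image e τ hne
  refine ⟨τ x0, ?_⟩
  by_contra hcon
  obtain ⟨y, hy, hy'⟩ := Finset.not_subset.1 hcon
  have hsplit : (e \ G (τ x0)) ∪ (e ∩ G (τ x0)) = e := Finset.sdiff_union_inter _ _
  have hdis : Disjoint (e \ G (τ x0)) (e ∩ G (τ x0)) := Finset.disjoint_sdiff_inter _ _
  obtain ⟨V, k1, k2⟩ := exists_real H he.1
  refine indec_all hM S he.2.1 he.2.2 k1.fd k2 hsplit hdis ⟨y, Finset.mem_sdiff.2 ⟨hy, hy'⟩⟩
    ⟨x0, Finset.mem_inter.2 ⟨hx0, hτ x0 hx0⟩⟩ ?_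
  refine ind_of_mob hM S hdis (by rw [hsplit]; exact he.2.1) (fun _ h => h)
    (he.1.mono Finset.sdiff_subset) ?_ (by rw [hsplit]; exact k1.fd) (by rw [hsplit]; exact k2)
  intro d hd hs
  refine hmob (τ x0) d (Finset.mem_inter.1 hd).2 (Finset.Subset.trans (H.mono _ _ ?_)
    (hs.trans (H.mono _ _ ?_)))
  · intro z hz
    rcases List.mem_cons.1 hz with rfl | hz
    · exact List.mem_cons_self ..
    · exact List.mem_cons_of_mem _ (List.mem_append_left _ hz)
  · intro z hz
    rcases List.mem_append.1 hz with hz | hz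
    · exact hBX _ hz
    · rw [Finset.mem_toList, Finset.mem_sdiff] at hz
      have h1 := hτ z hz.1
      have h2 := hmax z hz.1
      refine hGX (τ z) _ (lt_of_le_of_ne h2 fun h => hz.2 (h ▸ h1)) z h1

/-- the union of the copies -/
def AA (B : List ℕ) (G : ℕ → Finset ℕ) (c : ℕ → Bool) : Set ℕ :=
  {x | x ∈ B ∨ ∃ t ∈ br c, x ∈ G t}

/-- the independent copies are mapped into copies -/
lemma copy_to_copy (hM : FinLab M) (S : Sep H r B) {G : ℕ → Finset ℕ} {Xs : ℕ → List ℕ}
    (hBX : ∀ t, B ⊆ Xs t) (hGX : ∀ s t, s < t → ∀ x ∈ G s, x ∈ Xs t)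
    (hmob : ∀ t, ∀ d ∈ G t, ¬ H.sup (d :: B) ⊆ H.sup (Xs t))
    (hconn : ∀ t, ∃ v ∈ G t, ∀ x ∈ G t, Relation.ReflTransGen (AdjIn H r B (G t)) v x)
    {c c' : ℕ → Bool} {g k : ℕ → ℕ} (hk : ∀ x ∈ AA B G c, k (g x) = x)
    (hg : ∀ x ∈ AA B G c, g x ∈ AA B G c') (hkB : ∀ x ∈ B, k x = x)
    (hl : ∀ l : List ℕ, (∀ x ∈ l, x ∈ AA B G c') → M (l.map k) = M l)
    {t : ℕ} (ht : t ∈ br c) : ∃ t' ∈ br c', ∀ x ∈ G t, g x ∈ G t' := by
  classical
  have hmobB : ∀ s, Mob H B (G s) := fun s d hd h =>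
    hmob s d hd (h.trans (H.mono _ _ (hBX s)))
  have hGB : ∀ s, ∀ x ∈ G s, x ∉ B := fun s x hx hxB =>
    hmobB s x hx (H.mono _ _ fun z hz => by
      rcases List.mem_cons.1 hz with rfl | hz
      · exact hxB
      · exact hz)
  have hcop : ∀ x ∈ G t, ∃ t' ∈ br c', g x ∈ G t' := by
    intro x hx
    have hxA : x ∈ AA B G c := Or.inr ⟨t, ht, hx⟩
    rcases hg x hxA with h | h
    · have h1 := hkB _ h
      rw [hk x hxA] at h1
      exact absurd (h1 ▸ h) (hGB t x hx)
    · exact h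
  have hdisj : ∀ s s', s ≠ s' → ∀ x, x ∈ G s → x ∉ G s' := by
    have key : ∀ s s', s < s' → ∀ x, x ∈ G s → x ∉ G s' := by
      intro s s' hss x h1 h2
      refine hmob s' x h2 (H.mono _ _ fun z hz => ?_)
      rcases List.mem_cons.1 hz with rfl | hz
      · exact hGX s s' hss z h1
      · exact hBX _ hz
    intro s s' hss x h1 h2
    rcases lt_or_gt_of_ne hss with h | h
    · exact key s s' h x h1 h2
    · exact key s' s h x h2 h1
  obtain ⟨v, hv, hconn⟩ := hconn t
  obtain ⟨t', ht', hvt⟩ := hcop v hv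
  refine ⟨t', ht', fun x hx => ?_⟩
  have := hconn x hx
  clear hx
  induction this with
  | refl => exact hvt
  | @tail a b _ hab ih =>
    obtain ⟨e, he, heG, ha, hb⟩ := hab
    have hsub : ∀ y ∈ e.image g, ∃ t, y ∈ G t := by
      intro y hy
      obtain ⟨a, ha, rfl⟩ := Finset.mem_image.1 hy
      obtain ⟨t', -, h⟩ := hcop a (heG ha)
      exact ⟨t', h⟩
    have hE : Edge H r B (e.image g) := by
      refine he.transport hM (k := k) (fun x hx => hk x (Or.inr ⟨t, ht, heG hx⟩)) hkB ?_ ?_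
      · intro l hl'
        refine hl l fun x hx => ?_
        rcases hl' x hx with h | h
        · exact Or.inl h
        · obtain ⟨a, ha, rfl⟩ := Finset.mem_image.1 h
          exact hg a (Or.inr ⟨t, ht, heG ha⟩)
      · intro d hd
        obtain ⟨s, hs⟩ := hsub d hd
        exact hmobB s d hs
    obtain ⟨s, hs⟩ := edge_in hM S hBX hGX hmob hE hsub
    have h1 := hs (Finset.mem_image_of_mem g ha)
    have h2 := hs (Finset.mem_image_of_mem g hb)
    by_cases h3 : s = t'
    · rw [← h3]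
      exact h2
    · exact absurd ih (hdisj s t' h3 _ h1)

/-- (5.5) -/
theorem fin_comp (hM : FinLab M) (S : Sep H r B) (hs : SmallE M (id : ℕ → ℕ) (univ : Set ℕ))
    {u : ℕ} (hu : Mob H B {u}) : (comp H r B u).Finite := by
  classical
  by_contra hinf
  have hinf' : (comp H r B u).Infinite := hinf
  choose A a1 a2 a3 a4 using fun n => grow hu hinf' n
  -- sets of increasing sizes
  let b : ℕ → ℕ := fun t => Nat.rec 0 (fun _ m => (A m).card + 1) t
  let Bt : ℕ → Finset ℕ := fun t => A (b t)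
  have hb : ∀ t, b (t + 1) = (Bt t).card + 1 := fun t => rfl
  have hBtm : StrictMono fun t => (Bt t).card := by
    refine strictMono_nat_of_lt_succ fun t => ?_
    have h1 : b (t + 1) ≤ (Bt (t + 1)).card := a2 _
    rw [hb] at h1
    omega
  -- the copies
  have hpick : ∀ (X : List ℕ) (t : ℕ), ∃ p ∈ H.K, (∀ x ∈ B, p.1 x = x) ∧
      ∀ d ∈ Bt t, ¬ H.sup (p.1 d :: B) ⊆ H.sup X := by
    intro X t
    obtain ⟨p, h1, h2, -, -, h3⟩ := exists_copy H B B (fun _ h => h) (Bt t) (a3 _) X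
    exact ⟨p, h1, h2, h3⟩
  choose pk hpK hpB hpM using hpick
  let Xs : ℕ → List ℕ := fun t => Nat.rec B (fun t X => X ++ ((Bt t).image (pk X t).1).toList) t
  let G : ℕ → Finset ℕ := fun t => (Bt t).image (pk (Xs t) t).1
  have hXs : ∀ t, Xs (t + 1) = Xs t ++ (G t).toList := fun t => rfl
  have hBX : ∀ t, B ⊆ Xs t := by
    intro t
    induction t with
    | zero => exact fun _ h => h
    | succ t ih =>
      rw [hXs]
      exact fun x hx => List.mem_append_left _ (ih hx)
  have hGX : ∀ s t, s < t → ∀ x ∈ G s, x ∈ Xs t := by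
    intro s t hst x hx
    induction t with
    | zero => omega
    | succ t ih =>
      rw [hXs]
      rcases Nat.lt_succ_iff_lt_or_eq.1 hst with h | h
      · exact List.mem_append_left _ (ih h)
      · subst h
        exact List.mem_append_right _ (Finset.mem_toList.2 hx)
  have hmob : ∀ t, ∀ d ∈ G t, ¬ H.sup (d :: B) ⊆ H.sup (Xs t) := by
    intro t d hd
    obtain ⟨a, ha, rfl⟩ := Finset.mem_image.1 hd
    exact hpM _ _ a ha
  have hconn : ∀ t, ∃ v ∈ G t, ∀ x ∈ G t, Relation.ReflTransGen (AdjIn H r B (G t)) v x := by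
    intro t
    refine ⟨(pk (Xs t) t).1 u, Finset.mem_image_of_mem _ (a1 _), fun x hx => ?_⟩
    obtain ⟨a, ha, rfl⟩ := Finset.mem_image.1 hx
    have h1 := a4 _ a ha
    refine Relation.ReflTransGen.lift (r := AdjIn H r B (Bt t)) (p := AdjIn H r B (G t))
      (pk (Xs t) t).1 ?_ u a h1
    rintro x y ⟨e, he, hes, hx, hy⟩
    exact ⟨e.image (pk (Xs t) t).1, he.image hM (hpK _ _) (hpB _ _),
      Finset.image_subset_image hes, Finset.mem_image_of_mem _ hx, Finset.mem_image_of_mem _ hy⟩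
  have hcardG : ∀ t, (G t).card = (Bt t).card := fun t =>
    Finset.card_image_of_injective _ (pk (Xs t) t).1.injective
  have hdisj : ∀ s s', ∀ x, x ∈ G s → x ∈ G s' → s = s' := by
    have key : ∀ s s', s < s' → ∀ x, x ∈ G s → x ∉ G s' := by
      intro s s' hss x h1 h2
      refine hmob s' x h2 (H.mono _ _ fun z hz => ?_)
      rcases List.mem_cons.1 hz with rfl | hz
      · exact hGX s s' hss z h1
      · exact hBX _ hz
    intro s s' x h1 h2
    rcases lt_trichotomy s s' with h | h | h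
    · exact absurd h2 (key s s' h x h1)
    · exact h
    · exact absurd h1 (key s' s h x h2)
  -- the family
  have hmeas : ∀ x, MeasurableSet {c | x ∈ AA B G c} := by
    intro x
    by_cases hx : x ∈ B
    · have : {c | x ∈ AA B G c} = univ := eq_univ_of_forall fun c => Or.inl hx
      rw [this]
      exact MeasurableSet.univ
    · have h1 : {c | x ∈ AA B G c} = ⋃ t ∈ {t | x ∈ G t}, {c | t ∈ br c} := by
        ext c
        simp only [AA, mem_ofPred_eq, mem_iUnion, exists_prop, hx, false_or]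
        constructor
        · rintro ⟨t, h1, h2⟩
          exact ⟨t, h2, h1⟩
        · rintro ⟨t, h1, h2⟩
          exact ⟨t, h2, h1⟩
      rw [h1]
      exact MeasurableSet.biUnion (to_countable _) fun t _ => br_measurable t
  have hAinf : ∀ c, (AA B G c).Infinite := by
    intro c
    refine Set.infinite_of_injOn_mapsTo (s := br c) (f := fun t => (pk (Xs t) t).1 u) ?_ ?_
      (br_infinite c)
    · intro s _ t _ hst
      refine hdisj s t ((pk (Xs s) s).1 u) (Finset.mem_image_of_mem _ (a1 _)) ?_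
      have h1 : (pk (Xs s) s).1 u = (pk (Xs t) t).1 u := hst
      rw [h1]
      exact Finset.mem_image_of_mem _ (a1 _)
    · intro t ht
      exact Or.inr ⟨t, ht, Finset.mem_image_of_mem _ (a1 _)⟩
  obtain ⟨c, c', hcc, g, hg, him, hfix⟩ := hs (AA B G) B hmeas hAinf (fun _ => subset_univ _)
    (fun c x hx y _ hxy => by
      have hxy' : y = x := hxy
      rw [hxy']
      exact hx) (fun c x hx => Or.inl hx)
  let k : ℕ → ℕ := Function.invFunOn g (AA B G c)
  have hkg : ∀ x ∈ AA B G c, k (g x) = x := fun x hx => by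
    have h1 : ∃ a ∈ AA B G c, g a = g x := ⟨x, hx, rfl⟩
    exact hg.inj (Function.invFunOn_mem h1) hx (Function.invFunOn_eq h1)
  have hgk : ∀ x ∈ AA B G c', g (k x) = x := fun x hx => by
    rw [← him] at hx
    exact Function.invFunOn_eq hx
  have hkm : ∀ x ∈ AA B G c', k x ∈ AA B G c := fun x hx => by
    rw [← him] at hx
    exact Function.invFunOn_mem hx
  have hgm : ∀ x ∈ AA B G c, g x ∈ AA B G c' := fun x hx => by
    rw [← him]
    exact mem_image_of_mem g hx
  have hkB : ∀ x ∈ B, k x = x := fun x hx => by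
    have h1 := hkg x (Or.inl hx)
    rwa [hfix x hx] at h1
  have hlk : ∀ l : List ℕ, (∀ x ∈ l, x ∈ AA B G c') → M (l.map k) = M l := by
    intro l hl
    have h1 := hg.lab (l.map k) fun x hx => by
      obtain ⟨a, ha, rfl⟩ := List.mem_map.1 hx
      exact hkm a (hl a ha)
    rw [← h1, List.map_map]
    congr 1
    conv_rhs => rw [← List.map_id l]
    exact List.map_congr_left fun x hx => hgk x (hl x hx)
  have hsub : br c ⊆ br c' := by
    intro t ht
    obtain ⟨t', ht', h1⟩ := copy_to_copy hM S hBX hGX hmob hconn hkg hgm hkB hlk ht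
    obtain ⟨t'', ht'', h2⟩ := copy_to_copy hM S hBX hGX hmob hconn (g := k) (k := g) hgk hkm
      (fun x hx => hfix x hx) (fun l hl => hg.lab l hl) ht'
    have hu' : (pk (Xs t) t).1 u ∈ G t := Finset.mem_image_of_mem _ (a1 _)
    have h3 : t'' = t := by
      refine hdisj t'' t _ ?_ hu'
      have := h2 _ (h1 _ hu')
      rwa [hkg _ (Or.inr ⟨t, ht, hu'⟩)] at this
    subst h3
    have h4 : (G t'').card ≤ (G t').card := by
      refine Finset.card_le_card_of_injOn g (fun x hx => h1 x hx) ?_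
      intro x hx y hy hxy
      exact hg.inj (Or.inr ⟨_, ht, hx⟩) (Or.inr ⟨_, ht, hy⟩) hxy
    have h5 : (G t').card ≤ (G t'').card := by
      refine Finset.card_le_card_of_injOn k (fun x hx => h2 x hx) ?_
      intro x hx y hy hxy
      have h6 := congrArg g hxy
      rwa [hgk x (Or.inr ⟨_, ht', hx⟩), hgk y (Or.inr ⟨_, ht', hy⟩)] at h6
    have h6 : t'' = t' := by
      refine hBtm.injective ?_
      change (Bt t'').card = (Bt t').card
      rw [← hcardG, ← hcardG]
      exact le_antisymm h4 h5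
    rw [h6]
    exact ht'
  have h1 : (br c).Finite := (br_inter hcc).subset fun n hn => ⟨hn, hsub hn⟩
  exact br_infinite c h1

end Pool.Agent.H41.S5
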