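import Pool.Agent.H41.S5.Fr

/-!
# Indecomposable sets and claim (5.4)
-/

set_option autoImplicit false

open Set Filter

namespace Pool.Agent.H41.S5

open Pool.Agent.H41.HI Pool.Agent.H41.RLH

variable {C : Type} {M : List ℕ → C} {N : Subgroup (Equiv.Perm ℕ)}

/-- indecomposable sets of points -/
def Indec (H : HSys M N) (B : List ℕ) (D : Finset ℕ) : Prop :=
  ∃ V, FD H D V ∧ Real M B D V ∧ ∀ A A' : Finset ℕ, A ∪ A' = D → Disjoint A A' → A.Nonempty →
    A'.Nonempty → ¬ Ind M V A A'

/-- the edges: small indecomposable sets of mobile points -/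
def Edge (H : HSys M N) (r : ℕ) (B : List ℕ) (D : Finset ℕ) : Prop :=
  Mob H B D ∧ D.card ≤ r ∧ Indec H B D

variable {H : HSys M N} {B X : List ℕ} {D D' : Finset ℕ} {V U : Ultrafilter (ℕ → ℕ)} {r : ℕ}

lemma indec_all (hM : FinLab M) (S : Sep H r B) (hD : D.card ≤ r) (hI : Indec H B D)
    (hV : FD H D V) (hR : Real M B D V) {A A' : Finset ℕ} (hAA : A ∪ A' = D)
    (hd : Disjoint A A') (h1 : A.Nonempty) (h2 : A'.Nonempty) : ¬ Ind M V A A' := by
  obtain ⟨V', k1, k2, k3⟩ := hI
  intro h
  refine k3 A A' hAA hd h1 h2 (h.congr hM ?_ ?_ ?_ ?_ hd)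
  · rw [hAA]
    exact S.uni_real hD hV k1 hR k2
  · exact S.tame _ _ (hV.mono (by rw [← hAA]; exact Finset.subset_union_left))
  · exact S.tame _ _ (k1.mono (by rw [← hAA]; exact Finset.subset_union_left))
  · exact (hV.mono (by rw [← hAA]; exact Finset.subset_union_right)).np

/-- a minimal dependent set is indecomposable -/
theorem min_dep (hM : FinLab M) (S : Sep H r B) {P Q : Finset ℕ} (hPQ : Disjoint P Q)
    (hV : FD H (P ∪ Q) V) (hR : Real M B (P ∪ Q) V) (hnot : ¬ Ind M V P Q) :
    ∃ E ⊆ P ∪ Q, (E ∩ P).Nonempty ∧ (E ∩ Q).Nonempty ∧ Indec H B E := by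
  classical
  let F := (P ∪ Q).powerset.filter fun E => ¬ Ind M V (E ∩ P) (E ∩ Q)
  have hF : P ∪ Q ∈ F := by
    rw [Finset.mem_filter]
    refine ⟨Finset.mem_powerset_self _, ?_⟩
    rw [Finset.inter_eq_right.2 Finset.subset_union_left,
      Finset.inter_eq_right.2 Finset.subset_union_right]
    exact hnot
  obtain ⟨E, hE, hmin⟩ := Finset.exists_min_image F Finset.card ⟨_, hF⟩
  rw [Finset.mem_filter, Finset.mem_powerset] at hE
  obtain ⟨hEs, hEn⟩ := hE
  refine ⟨E, hEs, ?_, ?_, V, hV.mono hEs, hR.mono (fun _ h => h) hEs, ?_⟩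
  · rw [Finset.nonempty_iff_ne_empty]
    intro h
    apply hEn
    rw [h]
    exact ind_empty_left hM
  · rw [Finset.nonempty_iff_ne_empty]
    intro h
    apply hEn
    rw [h]
    exact ind_empty_right hM
  · intro A A' hAA hd h1 h2 hI
    have sA : A ⊆ E := by rw [← hAA]; exact Finset.subset_union_left
    have sA' : A' ⊆ E := by rw [← hAA]; exact Finset.subset_union_right
    have key : ∀ G : Finset ℕ, G ⊆ E → G.card < E.card → Ind M V (G ∩ P) (G ∩ Q) := by
      intro G hG hc
      by_contra hcon
      have h3 : G ∈ F := by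
        rw [Finset.mem_filter, Finset.mem_powerset]
        exact ⟨hG.trans hEs, hcon⟩
      exact absurd (hmin G h3) (not_le.2 hc)
    have hcard : A.card + A'.card = E.card := by
      rw [← hAA, Finset.card_union_of_disjoint hd]
    have c1 := h1.card_pos
    have c2 := h2.card_pos
    have k1 := key A sA (by omega)
    have k2 := key A' sA' (by omega)
    have split : ∀ G : Finset ℕ, G ⊆ E → (G ∩ P) ∪ (G ∩ Q) = G := by
      intro G hG
      rw [← Finset.inter_union_distrib_left]
      exact Finset.inter_eq_left.2 (hG.trans hEs)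
    have s1 := split A sA
    have s2 := split A' sA'
    apply hEn
    have e1 : E ∩ P = (A ∩ P) ∪ (A' ∩ P) := by
      rw [← hAA, Finset.union_inter_distrib_right]
    have e2 : E ∩ Q = (A ∩ Q) ∪ (A' ∩ Q) := by
      rw [← hAA, Finset.union_inter_distrib_right]
    rw [e1, e2]
    refine Ind.four hM ?_ ?_ ?_ ?_ ?_ k1 k2 ?_
    · intro G hG
      rw [s1, s2, hAA] at hG
      exact S.tame _ _ (hV.mono (hG.trans hEs))
    · rw [s1, s2, hAA]
      exact (hV.mono hEs).np
    · exact hPQ.mono Finset.inter_subset_right Finset.inter_subset_right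
    · exact hPQ.mono Finset.inter_subset_right Finset.inter_subset_right
    · rw [s1, s2]
      exact hd
    · rw [s1, s2]
      exact hI

lemma sup_append_subset (H : HSys M N) {B : List ℕ} {E : Finset ℕ}
    (h : H.sup (B ++ E.toList) ⊆ H.sup B) : H.sup (B ++ E.toList) = H.sup B :=
  Finset.Subset.antisymm h (H.mono _ _ fun _ hx => List.mem_append_left _ hx)

/-- a maximal subset without support over `B` -/
lemma exists_max (H : HSys M N) (B : List ℕ) (P : Finset ℕ → Prop) (G : Finset ℕ)
    (h0 : ∃ E ⊆ G, P E ∧ H.sup (B ++ E.toList) ⊆ H.sup B) :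
    ∃ E ⊆ G, P E ∧ H.sup (B ++ E.toList) ⊆ H.sup B ∧
      ∀ E', E ⊆ E' → E' ⊆ G → P E' → H.sup (B ++ E'.toList) ⊆ H.sup B → E' = E := by
  classical
  let F := G.powerset.filter fun E => P E ∧ H.sup (B ++ E.toList) ⊆ H.sup B
  obtain ⟨E0, k1, k2, k3⟩ := h0
  have hF : F.Nonempty := ⟨E0, by
    rw [Finset.mem_filter, Finset.mem_powerset]
    exact ⟨k1, k2, k3⟩⟩
  obtain ⟨E, hE, hmax⟩ := Finset.exists_max_image F Finset.card hF
  rw [Finset.mem_filter, Finset.mem_powerset] at hE
  refine ⟨E, hE.1, hE.2.1, hE.2.2, fun E' h1 h2 h3 h4 => ?_⟩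
  have h5 : E' ∈ F := by
    rw [Finset.mem_filter, Finset.mem_powerset]
    exact ⟨h2, h3, h4⟩
  exact (Finset.eq_of_subset_of_card_le h1 (hmax E' h5)).symm

lemma mob_of_max (H : HSys M N) {B : List ℕ} {G E : Finset ℕ} {P : Finset ℕ → Prop}
    (hP : ∀ E' ⊆ G, E ⊆ E' → P E') (h1 : H.sup (B ++ E.toList) ⊆ H.sup B)
    (h2 : ∀ E', E ⊆ E' → E' ⊆ G → P E' → H.sup (B ++ E'.toList) ⊆ H.sup B → E' = E) (hE : E ⊆ G) :
    Mob H (B ++ E.toList) (G \ E) := by
  intro d hd hs
  rw [Finset.mem_sdiff] at hd
  have h3 : insert d E ⊆ G := Finset.insert_subset hd.1 hE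
  have h4 := h2 (insert d E) (Finset.subset_insert _ _) h3 (hP _ h3 (Finset.subset_insert _ _)) ?_
  · exact hd.2 (by rw [← h4]; exact Finset.mem_insert_self _ _)
  · refine Finset.Subset.trans (H.mono _ _ fun z hz => ?_) (hs.trans h1)
    rcases List.mem_append.1 hz with hz | hz
    · exact List.mem_cons_of_mem _ (List.mem_append_left _ hz)
    · rw [Finset.mem_toList, Finset.mem_insert] at hz
      rcases hz with rfl | hz
      · exact List.mem_cons_self ..
      · exact List.mem_cons_of_mem _ (List.mem_append_right _ (Finset.mem_toList.2 hz))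

/-- mobility over `B` gives mobility over `B` and a set without support -/
lemma Mob.append (h : Mob H B D) {E : Finset ℕ} (hE : H.sup (B ++ E.toList) ⊆ H.sup B) :
    Mob H (B ++ E.toList) D := by
  intro d hd hs
  refine h d hd (Finset.Subset.trans (H.mono _ _ fun z hz => ?_) (hs.trans hE))
  rcases List.mem_cons.1 hz with rfl | hz
  · exact List.mem_cons_self ..
  · exact List.mem_cons_of_mem _ (List.mem_append_left _ hz)

/-- (5.4) -/
theorem claim54 (hM : FinLab M) (S : Sep H r B) {Cc : Finset ℕ} (hDC : Disjoint D Cc)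
    (hr : D.card + Cc.card ≤ r) (hD : Mob H B D) (hV : FD H D V) (hR : Real M B D V)
    (hnot : ¬ Real M (B ++ Cc.toList) D V) :
    ∃ D' ⊆ D, ∃ C' ⊆ Cc, D'.Nonempty ∧ C'.Nonempty ∧ Mob H B C' ∧ Indec H B (D' ∪ C') := by
  classical
  have hD0 : D.card ≤ r := by omega
  -- the part without support
  obtain ⟨C0, hC0, -, s1, s2⟩ := exists_max H B (fun _ => True) Cc
    ⟨∅, Finset.empty_subset _, trivial, by simp⟩
  have hC1mob : Mob H (B ++ C0.toList) (Cc \ C0) :=
    mob_of_max H (fun _ _ _ => trivial) s1 s2 hC0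
  set C1 := Cc \ C0 with hC1
  have hDmob : Mob H (B ++ C0.toList) D := hD.append s1
  have hBX : B ⊆ B ++ C0.toList := fun x hx => List.mem_append_left _ hx
  have hmob : Mob H (B ++ C0.toList) (C1 ∪ D) := by
    intro d hd
    rcases Finset.mem_union.1 hd with h | h
    · exact hC1mob d h
    · exact hDmob d h
  obtain ⟨V1, k1, k2⟩ := exists_real H hmob
  have hC1D : Disjoint C1 D := (hDC.mono_right Finset.sdiff_subset).symm
  have hcC1 : C1.card ≤ Cc.card := Finset.card_le_card Finset.sdiff_subset
  have hcard : (C1 ∪ D).card ≤ r := by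
    rw [Finset.card_union_of_disjoint hC1D]
    omega
  have hR1 : Real M B (C1 ∪ D) V1 := k2.mono hBX (Finset.Subset.refl _)
  have hVV : EqOn M D V V1 := S.uni_real hD0 hV (k1.fd.mono Finset.subset_union_right) hR
    (hR1.mono (fun _ h => h) Finset.subset_union_right)
  -- dependence
  have hdep : ¬ Ind M V1 C1 D := by
    intro hI
    apply hnot
    intro w hw
    let w' : List (ℕ ⊕ ℕ) := w.map (Sum.elim (fun x => if x ∈ C1 then Sum.inr x else Sum.inl x)
      Sum.inr)
    have e1 : ev id w' = ev id w := by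
      unfold ev
      rw [List.map_map]
      refine List.map_congr_left fun q _ => ?_
      rcases q with x | d
      · simp only [Sum.elim_inl, Function.comp]
        split_ifs <;> rfl
      · rfl
    have hw' : Wd {x | x ∈ B ++ C0.toList} (C1 ∪ D) w' := by
      constructor
      · intro x hx
        rw [List.mem_map] at hx
        obtain ⟨q, hq, hq'⟩ := hx
        rcases q with a | d
        · simp only [Sum.elim_inl] at hq'
          split_ifs at hq' with h5
          have h6 : a = x := by simpa using hq'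
          subst h6
          have h7 := hw.1 a hq
          change a ∈ B ++ Cc.toList at h7
          change a ∈ B ++ C0.toList
          rcases List.mem_append.1 h7 with h8 | h8
          · exact List.mem_append_left _ h8
          · refine List.mem_append_right _ (Finset.mem_toList.2 ?_)
            by_contra h9
            exact h5 (Finset.mem_sdiff.2 ⟨Finset.mem_toList.1 h8, h9⟩)
        · simp at hq'
      · intro x hx
        rw [List.mem_map] at hx
        obtain ⟨q, hq, hq'⟩ := hx
        rcases q with a | d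
        · simp only [Sum.elim_inl] at hq'
          split_ifs at hq' with h5
          have h6 : a = x := by simpa using hq'
          subst h6
          exact Finset.mem_union_left _ h5
        · have h6 : d = x := by simpa using hq'
          subst h6
          exact Finset.mem_union_right _ (hw.2 d hq)
    obtain ⟨V', m1, m2⟩ := S.mem D hD0 V1 (k1.fd.mono Finset.subset_union_right)
    have e2 : tp M V1 w' = tp M (prd C1 V1 V') w' :=
      (hI w' hw'.2).trans ((prd_congr_right hM m2 (Finset.Subset.refl _)) w' hw'.2)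
    rw [k2 w' hw', e1, five_two hM S hC1D hBX hC1mob (by omega) hD0 m1
      (k1.fd.mono Finset.subset_union_left)
      (hR1.mono (fun _ h => h) Finset.subset_union_left) hw'] at e2
    have e3 : sub C1 id w' = w.map (Sum.elim (fun x => if x ∈ C1 then Sum.inl x else Sum.inl x)
        Sum.inr) := by
      unfold sub
      rw [List.map_map]
      refine List.map_congr_left fun q hq => ?_
      rcases q with x | d
      · simp only [Sum.elim_inl, Function.comp]
        split_ifs with h5
        · simp [h5]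
        · rfl
      · simp only [Sum.elim_inr, Function.comp]
        rw [if_neg]
        exact fun h6 => Finset.disjoint_left.1 hC1D h6 (hw.2 d hq)
    have e4 : sub C1 id w' = w := by
      rw [e3]
      conv_rhs => rw [← List.map_id w]
      refine List.map_congr_left fun q _ => ?_
      rcases q with x | d
      · simp
      · rfl
    rw [e4] at e2
    rw [hVV w hw.2, m2 w hw.2, e2]
  obtain ⟨E, hE, hEC, hED, hEI⟩ := min_dep hM S hC1D k1.fd hR1 hdep
  have hEsplit : (E ∩ C1) ∪ (E ∩ D) = E := by
    rw [← Finset.inter_union_distrib_left]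
    exact Finset.inter_eq_left.2 hE
  refine ⟨E ∩ D, Finset.inter_subset_right, E ∩ C1,
    Finset.inter_subset_right.trans Finset.sdiff_subset, hED, hEC, ?_, ?_⟩
  · -- the points of E ∩ C1 are mobile over B
    by_contra hcon
    unfold Mob at hcon
    push Not at hcon
    obtain ⟨c, hc, hc'⟩ := hcon
    let G := (E ∩ C1).filter fun c => H.sup (c :: B) ⊆ H.sup B
    have hcG : c ∈ G := Finset.mem_filter.2 ⟨hc, hc'⟩
    obtain ⟨E0, n1, n2, n3, n4⟩ := exists_max H B (fun E => E.Nonempty) G
      ⟨{c}, Finset.singleton_subset_iff.2 hcG, Finset.singleton_nonempty _, by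
        refine Finset.Subset.trans (H.mono _ _ fun z hz => ?_) hc'
        rcases List.mem_append.1 hz with hz | hz
        · exact List.mem_cons_of_mem _ hz
        · rw [Finset.mem_toList, Finset.mem_singleton] at hz
          rw [hz]
          exact List.mem_cons_self ..⟩
    have hmobG : Mob H (B ++ E0.toList) (G \ E0) :=
      mob_of_max H (fun E' _ h => n2.mono h) n3 n4 n1
    have hGE : G ⊆ E := (Finset.filter_subset _ _).trans Finset.inter_subset_left
    have hE0E : E0 ⊆ E := n1.trans hGE
    have hE0C : E0 ⊆ C1 := n1.trans ((Finset.filter_subset _ _).trans Finset.inter_subset_right)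
    have hrest : Mob H (B ++ E0.toList) (E \ E0) := by
      intro d hd
      rw [Finset.mem_sdiff] at hd
      by_cases hdG : d ∈ G
      · exact hmobG d (Finset.mem_sdiff.2 ⟨hdG, hd.2⟩)
      · have h1 : Mob H B {d} := by
          intro d' hd'
          rw [Finset.mem_singleton] at hd'
          subst hd'
          rcases Finset.mem_union.1 (hE hd.1) with h2 | h2
          · intro h3
            exact hdG (Finset.mem_filter.2 ⟨Finset.mem_inter.2 ⟨hd.1, h2⟩, h3⟩)
          · exact hD d' h2
        exact (h1.append n3) d (Finset.mem_singleton_self d)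
    have hEE : E0 ∪ (E \ E0) = E := Finset.union_sdiff_of_subset hE0E
    have hdis : Disjoint E0 (E \ E0) := Finset.disjoint_sdiff
    have hEr : E.card ≤ r := (Finset.card_le_card hE).trans hcard
    have hVE : FD H E V1 := k1.fd.mono hE
    have hRE : Real M B E V1 := hR1.mono (fun _ h => h) hE
    have hneE : (E \ E0).Nonempty := by
      obtain ⟨d, hd⟩ := hED
      rw [Finset.mem_inter] at hd
      exact ⟨d, Finset.mem_sdiff.2 ⟨hd.1, fun h => Finset.disjoint_left.1 hC1D (hE0C h) hd.2⟩⟩
    refine indec_all hM S hEr hEI hVE hRE hEE hdis n2 hneE ?_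
    refine ind_of_mob hM S hdis (by rw [hEE]; exact hEr) hBX (hC1mob.mono hE0C) hrest ?_ ?_
    · rw [hEE]; exact hVE
    · rw [hEE]; exact hRE
  · rw [Finset.union_comm, hEsplit]
    exact hEI

/-! ## Visible edges -/

lemma map_map_inl {h : ℕ → ℕ} {w : List (ℕ ⊕ ℕ)} :
    ev id (w.map (Sum.map id h)) = ev h w := by
  unfold ev
  rw [List.map_map]
  refine List.map_congr_left fun q _ => ?_
  rcases q with x | d <;> rfl

/-- reindexing of free ultrafilters -/
lemma Fr.reindex {h : ℕ → ℕ} (hV : Fr H B D' V) (hD : MapsTo h D D') (hi : InjOn h D) :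
    Fr H B D (V.map fun y d => y (h d)) := by
  refine ⟨?_, fun X hX => ?_⟩
  · rw [Ultrafilter.coe_map, Filter.eventually_map]
    exact hV.1.mono fun y hy a ha b hb hab => hi ha hb (hy (hD ha) (hD hb) hab)
  · rw [Ultrafilter.coe_map, Filter.eventually_map]
    exact (hV.2 X hX).mono fun y hy d hd => hy (h d) (hD hd)

lemma FD.reindex {h : ℕ → ℕ} (hV : FD H D' V) (hD : MapsTo h D D') (hi : InjOn h D) :
    FD H D (V.map fun y d => y (h d)) := hV.imp fun _ hV => hV.reindex hD hi

lemma wd_reindex {X : Set ℕ} {h : ℕ → ℕ} {w : List (ℕ ⊕ ℕ)} (hw : Wd X D w)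
    (hD : MapsTo h D D') : Wd X D' (w.map (Sum.map id h)) := by
  constructor
  · intro x hx
    rw [List.mem_map] at hx
    obtain ⟨q, hq, hq'⟩ := hx
    rcases q with a | d
    · have : a = x := by simpa using hq'
      exact this ▸ hw.1 a hq
    · simp at hq'
  · intro x hx
    rw [List.mem_map] at hx
    obtain ⟨q, hq, hq'⟩ := hx
    rcases q with a | d
    · simp at hq'
    · have : h d = x := by simpa using hq'
      exact this ▸ hD (hw.2 d hq)

lemma Real.reindex (hM : FinLab M) {h : ℕ → ℕ} (hR : Real M B D' V) (hD : MapsTo h D D')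
    (hB : ∀ x ∈ B, h x = x)
    (hl : ∀ l : List ℕ, (∀ x ∈ l, x ∈ B ∨ x ∈ D) → M (l.map h) = M l) :
    Real M B D (V.map fun y d => y (h d)) := by
  intro w hw
  rw [tp_reindex hM, hR _ (wd_reindex hw hD), map_map_inl, ev_fix hw.1 hB]
  refine hl _ fun x hx => ?_
  unfold ev at hx
  rw [List.mem_map] at hx
  obtain ⟨q, hq, hq'⟩ := hx
  rcases q with a | d
  · exact Or.inl (hq' ▸ hw.1 a hq)
  · exact Or.inr (hq' ▸ hw.2 d hq)

lemma ind_reindex (hM : FinLab M) {h : ℕ → ℕ} {A A' : Finset ℕ} (hi : InjOn h (A ∪ A' : Finset ℕ))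
    (hd : Disjoint A A') :
    Ind M (V.map fun y d => y (h d)) A A' ↔ Ind M V (A.image h) (A'.image h) := by
  classical
  -- the product
  have key : ∀ w : List (ℕ ⊕ ℕ), (∀ d, Sum.inr d ∈ w → d ∈ A ∪ A') →
      tp M (prd A (V.map fun y d => y (h d)) (V.map fun y d => y (h d))) w =
        tp M (prd (A.image h) V V) (w.map (Sum.map id h)) := by
    intro w hw
    refine tp_eq ?_
    have h1 := tp_spec hM (prd (A.image h) V V) (w.map (Sum.map id h))
    rw [prd_iff] at h1 ⊢
    rw [Ultrafilter.coe_map, Filter.eventually_map]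
    refine h1.mono fun x hx => ?_
    rw [Filter.eventually_map]
    refine hx.mono fun y hy => ?_
    rw [← hy, ← ev_reindex]
    congr 1
    refine ev_congr hw fun d hd' => ?_
    unfold mix
    by_cases h2 : d ∈ A
    · rw [if_pos h2, if_pos (Finset.mem_image_of_mem _ h2)]
    · rw [if_neg h2, if_neg]
      intro h3
      obtain ⟨a, ha, ha'⟩ := Finset.mem_image.1 h3
      have h4 : a = d := hi (Finset.mem_coe.2 (Finset.mem_union_left _ ha))
        (Finset.mem_coe.2 hd') ha'
      exact h2 (h4 ▸ ha)
  unfold Ind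
  constructor
  · intro hI w hw
    -- the inverse
    let k := Function.invFunOn h (A ∪ A' : Finset ℕ)
    have hk : ∀ e ∈ A.image h ∪ A'.image h, k e ∈ A ∪ A' ∧ h (k e) = e := by
      intro e he
      rw [← Finset.image_union] at he
      obtain ⟨a, ha, ha'⟩ := Finset.mem_image.1 he
      exact ⟨Function.invFunOn_mem ⟨a, ha, ha'⟩, Function.invFunOn_eq ⟨a, ha, ha'⟩⟩
    have e1 : (w.map (Sum.map id k)).map (Sum.map id h) = w := by
      rw [List.map_map]
      conv_rhs => rw [← List.map_id w]
      refine List.map_congr_left fun q hq => ?_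
      rcases q with x | d
      · rfl
      · exact congrArg Sum.inr (hk d (hw d hq)).2
    have hw' : ∀ d, Sum.inr d ∈ w.map (Sum.map id k) → d ∈ A ∪ A' := by
      intro d hd'
      rw [List.mem_map] at hd'
      obtain ⟨q, hq, hq'⟩ := hd'
      rcases q with x | e
      · simp at hq'
      · have : k e = d := by simpa using hq'
        exact this ▸ (hk e (hw e hq)).1
    have h1 := hI _ hw'
    rw [key _ hw', tp_reindex hM, e1] at h1
    exact h1
  · intro hI w hw
    rw [key w hw, tp_reindex hM]
    refine hI _ fun d hd' => ?_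
    rw [List.mem_map] at hd'
    obtain ⟨q, hq, hq'⟩ := hd'
    rcases q with x | e
    · simp at hq'
    · have h2 : h e = d := by simpa using hq'
      rw [← h2, ← Finset.image_union]
      exact Finset.mem_image_of_mem _ (hw e hq)

/-- edges are visible: maps which preserve the labels over `B` reflect indecomposability -/
theorem Indec.reindex (hM : FinLab M) {h : ℕ → ℕ} (hi : InjOn h D) (hB : ∀ x ∈ B, h x = x)
    (hl : ∀ l : List ℕ, (∀ x ∈ l, x ∈ B ∨ x ∈ D) → M (l.map h) = M l)
    (hI : Indec H B (D.image h)) : Indec H B D := by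
  classical
  obtain ⟨V, h1, h2, h3⟩ := hI
  have hm : MapsTo h D (D.image h : Finset ℕ) := fun x hx => by
    rw [Finset.mem_coe]
    exact Finset.mem_image_of_mem _ hx
  refine ⟨V.map fun y d => y (h d), h1.reindex hm hi, h2.reindex hM hm hB hl, ?_⟩
  intro A A' hAA hd k1 k2 hI
  rw [ind_reindex hM (by rw [hAA]; exact hi) hd] at hI
  refine h3 _ _ (by rw [← Finset.image_union, hAA]) ?_ (k1.image h) (k2.image h) hI
  rw [Finset.disjoint_left]
  intro x hx hx'
  obtain ⟨a, ha, rfl⟩ := Finset.mem_image.1 hx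
  obtain ⟨b, hb, hb'⟩ := Finset.mem_image.1 hx'
  have hb2 : b ∈ D := by rw [← hAA]; exact Finset.mem_union_right _ hb
  have ha2 : a ∈ D := by rw [← hAA]; exact Finset.mem_union_left _ ha
  have : b = a := hi hb2 ha2 hb'
  exact Finset.disjoint_left.1 hd ha (this ▸ hb)

end Pool.Agent.H41.S5
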