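import Pool.Agent.H41.S5.Tp
import Pool.Agent.H41.HI.Sys

/-!
# Free ultrafilters over a base
-/

set_option autoImplicit false

open Set Filter

namespace Pool.Agent.H41.S5

open Pool.Agent.H41.HI Pool.Agent.H41.RLH

variable {C : Type} {M : List ℕ → C} {N : Subgroup (Equiv.Perm ℕ)}

/-- almost all tuples on `D` are injective and free over `B` from every finite set -/
def Fr (H : HSys M N) (B : List ℕ) (D : Finset ℕ) (V : Ultrafilter (ℕ → ℕ)) : Prop :=
  (∀ᶠ y in (V : Filter (ℕ → ℕ)), InjOn y D) ∧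
    ∀ X : List ℕ, B ⊆ X → ∀ᶠ y in (V : Filter (ℕ → ℕ)), ∀ d ∈ D, ¬ H.sup (y d :: B) ⊆ H.sup X

/-- free over some base -/
def FD (H : HSys M N) (D : Finset ℕ) (V : Ultrafilter (ℕ → ℕ)) : Prop := ∃ B, Fr H B D V

/-- every point of `D` is mobile over `X` -/
def Mob (H : HSys M N) (X : List ℕ) (D : Finset ℕ) : Prop := ∀ d ∈ D, ¬ H.sup (d :: X) ⊆ H.sup X

/-- `D` realizes `V` over `X` -/
def Real (M : List ℕ → C) (X : List ℕ) (D : Finset ℕ) (V : Ultrafilter (ℕ → ℕ)) : Prop :=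
  ∀ w : List (ℕ ⊕ ℕ), Wd {x | x ∈ X} D w → tp M V w = M (ev id w)

variable {H : HSys M N} {B X : List ℕ} {D D' : Finset ℕ} {V U : Ultrafilter (ℕ → ℕ)}

lemma Fr.mono_dom (h : Fr H B D V) (hD : D' ⊆ D) : Fr H B D' V :=
  ⟨h.1.mono fun _ hy => hy.mono hD, fun X hX => (h.2 X hX).mono fun _ hy d hd => hy d (hD hd)⟩

lemma Fr.mono_base {B' : List ℕ} (h : Fr H B D V) (hB : B ⊆ B') : Fr H B' D V :=
  ⟨h.1, fun X hX => (h.2 X fun _ hx => hX (hB hx)).mono fun y hy d hd hs =>
    hy d hd (fun _ hn => hs (H.mono _ _ (fun z hz => by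
      rcases List.mem_cons.1 hz with rfl | hz
      · exact List.mem_cons_self ..
      · exact List.mem_cons_of_mem _ (hB hz)) hn))⟩

lemma Fr.np (h : Fr H B D V) : NP D V :=
  ⟨h.1, fun x => (h.2 (x :: B) fun _ hz => List.mem_cons_of_mem _ hz).mono fun y hy d hd hx =>
    hy d hd (by rw [hx])⟩

lemma FD.mono (h : FD H D V) (hD : D' ⊆ D) : FD H D' V := h.imp fun _ h => h.mono_dom hD

lemma FD.np (h : FD H D V) : NP D V := h.elim fun _ h => h.np

lemma Fr.fd (h : Fr H B D V) : FD H D V := ⟨B, h⟩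

lemma FD.prd (hV : FD H D V) (hU : FD H D' U) (hd : Disjoint D D') :
    FD H (D ∪ D') (prd D V U) := by
  obtain ⟨B, hV⟩ := hV
  obtain ⟨B', hU⟩ := hU
  have hV' : Fr H (B ++ B') D V := hV.mono_base fun x hx => List.mem_append_left _ hx
  have hU' : Fr H (B ++ B') D' U := hU.mono_base fun x hx => List.mem_append_right _ hx
  refine ⟨B ++ B', (hV'.np.prd hU'.np hd).1, fun X hX => ?_⟩
  rw [prd_iff]
  refine (hV'.2 X hX).mono fun x hx => (hU'.2 X hX).mono fun y hy d hd' => ?_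
  unfold mix
  split_ifs with h
  · exact hx d h
  · exact hy d ((Finset.mem_union.1 hd').resolve_left h)

lemma Fr.congr (h : Fr H B D V) (f : (ℕ → ℕ) → ℕ → ℕ) (hf : ∀ y, ∀ d ∈ D, f y d = y d) :
    Fr H B D (V.map f) := by
  refine ⟨?_, fun X hX => ?_⟩
  · rw [Ultrafilter.coe_map, Filter.eventually_map]
    refine h.1.mono fun y hy a ha b hb hab => hy ha hb ?_
    rw [hf y a ha, hf y b hb] at hab
    exact hab
  · rw [Ultrafilter.coe_map, Filter.eventually_map]
    refine (h.2 X hX).mono fun y hy d hd => ?_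
    rw [hf y d hd]
    exact hy d hd

lemma Mob.mono (h : Mob H X D) (hD : D' ⊆ D) : Mob H X D' := fun d hd => h d (hD hd)

/-! ## Moving points away -/

/-- an involution which moves the finite set `A` off `S` and fixes the rest of `S` -/
lemma exists_move (A S : Finset ℕ) : ∃ σ : Equiv.Perm ℕ, (∀ n, σ (σ n) = n) ∧
    (∀ n ∈ A, σ n ∉ S) ∧ ∀ n ∈ S, n ∉ A → σ n = n := by
  obtain ⟨K, hK⟩ : ∃ K : ℕ, ∀ n ∈ A ∪ S, n < K := by
    refine ⟨(A ∪ S).sup id + 1, fun n hn => ?_⟩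
    exact Nat.lt_succ_of_le (Finset.le_sup (f := id) hn)
  have hA : ∀ n ∈ A, n < K := fun n hn => hK n (Finset.mem_union_left _ hn)
  have hS : ∀ n ∈ S, n < K := fun n hn => hK n (Finset.mem_union_right _ hn)
  let f : ℕ → ℕ := fun n => if n ∈ A then n + K else if K ≤ n ∧ n - K ∈ A then n - K else n
  have hf : Function.Involutive f := by
    intro n
    by_cases h1 : n ∈ A
    · have h2 : f n = n + K := if_pos h1
      have h3 : n + K ∉ A := fun h => by
        have := hA _ h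
        omega
      rw [h2]
      change (if n + K ∈ A then _ else _) = n
      rw [if_neg h3, if_pos ⟨by omega, by simpa using h1⟩]
      omega
    · by_cases h2 : K ≤ n ∧ n - K ∈ A
      · have h3 : f n = n - K := by
          change (if n ∈ A then _ else _) = _
          rw [if_neg h1, if_pos h2]
        rw [h3]
        change (if n - K ∈ A then _ else _) = n
        rw [if_pos h2.2]
        omega
      · have h3 : f n = n := by
          change (if n ∈ A then _ else _) = _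
          rw [if_neg h1, if_neg h2]
        rw [h3, h3]
  refine ⟨hf.toPerm, fun n => hf n, fun n hn h => ?_, fun n hn h => ?_⟩
  · have h2 : f n = n + K := if_pos hn
    have h3 : f n < K := hS _ h
    omega
  · change (if n ∈ A then _ else _) = n
    rw [if_neg h, if_neg]
    rintro ⟨h2, -⟩
    have := hS n hn
    omega

/-- lifting of a move: the points of `D` go to points free from `Y` over `B` -/
lemma exists_copy (H : HSys M N) (B X : List ℕ) (hB : B ⊆ X) (D : Finset ℕ)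
    (hD : ∀ d ∈ D, ¬ H.sup (d :: B) ⊆ H.sup X) (Y : List ℕ) :
    ∃ p ∈ H.K, (∀ x ∈ X, p.1 x = x) ∧ (∀ n ∈ H.sup X, p.2 n = n) ∧
      (∀ n ∈ H.sup (D.toList ++ X), n ∉ H.sup X → p.2 n ∉ H.sup Y) ∧
      ∀ d ∈ D, ¬ H.sup (p.1 d :: B) ⊆ H.sup Y := by
  obtain ⟨σ, -, h1, h2⟩ := exists_move (H.sup (D.toList ++ X) \ H.sup X) (H.sup X ∪ H.sup Y)
  have hσ : ∀ n ∈ H.sup X, σ n = n := fun n hn => h2 n (Finset.mem_union_left _ hn) fun h =>
    (Finset.mem_sdiff.1 h).2 hn
  obtain ⟨h, hK, hfix⟩ := H.surj X σ hσ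
  refine ⟨(h, σ), hK, hfix, hσ, fun n hn hn' hY => ?_, fun d hd hs => ?_⟩
  · exact h1 n (Finset.mem_sdiff.2 ⟨hn, hn'⟩) (Finset.mem_union_right _ hY)
  · obtain ⟨n, hn, hn'⟩ := Finset.not_subset.1 (hD d hd)
    have h3 : n ∈ H.sup (D.toList ++ X) := H.mono _ _ (fun z hz => by
      rcases List.mem_cons.1 hz with rfl | hz
      · exact List.mem_append_left _ (Finset.mem_toList.2 hd)
      · exact List.mem_append_right _ (hB hz)) hn
    have h4 := (H.eqv (h, σ) hK (d :: B) n).1 hn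
    have h5 : (d :: B).map h = h d :: B := by
      rw [List.map_cons]
      congr 1
      conv_rhs => rw [← List.map_id B]
      exact List.map_congr_left fun x hx => hfix x (hB hx)
    rw [h5] at h4
    exact h1 n (Finset.mem_sdiff.2 ⟨h3, hn'⟩) (Finset.mem_union_right _ (hs h4))

/-- (0.4) -/
lemma exists_fr (H : HSys M N) (B X : List ℕ) (hB : B ⊆ X) (D : Finset ℕ)
    (hD : ∀ d ∈ D, ¬ H.sup (d :: B) ⊆ H.sup X) :
    ∃ V : Ultrafilter (ℕ → ℕ), (∀ᶠ y in (V : Filter (ℕ → ℕ)), ∃ p ∈ H.K, (∀ x ∈ X, p.1 x = x) ∧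
      ⇑p.1 = y) ∧ Fr H B D V := by
  let G : List ℕ → Set (ℕ → ℕ) := fun Y => {y | (∃ p ∈ H.K, (∀ x ∈ X, p.1 x = x) ∧ ⇑p.1 = y) ∧
    ∀ d ∈ D, ¬ H.sup (y d :: B) ⊆ H.sup Y}
  have hne : ∀ Y, (G Y).Nonempty := by
    intro Y
    obtain ⟨p, hp, h1, -, -, h2⟩ := exists_copy H B X hB D hD Y
    exact ⟨p.1, ⟨p, hp, h1, rfl⟩, h2⟩
  have hdir : Directed (· ≥ ·) fun Y => (𝓟 (G Y) : Filter (ℕ → ℕ)) := by
    intro Y Y'
    refine ⟨Y ++ Y', ?_, ?_⟩
    · refine Filter.principal_mono.2 fun y hy => ⟨hy.1, fun d hd hs => hy.2 d hd ?_⟩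
      exact hs.trans (H.mono _ _ fun z hz => List.mem_append_left _ hz)
    · refine Filter.principal_mono.2 fun y hy => ⟨hy.1, fun d hd hs => hy.2 d hd ?_⟩
      exact hs.trans (H.mono _ _ fun z hz => List.mem_append_right _ hz)
  haveI : (⨅ Y, (𝓟 (G Y) : Filter (ℕ → ℕ))).NeBot :=
    Filter.iInf_neBot_of_directed' hdir fun Y => Filter.principal_neBot_iff.2 (hne Y)
  let V : Ultrafilter (ℕ → ℕ) := Ultrafilter.of (⨅ Y, (𝓟 (G Y) : Filter (ℕ → ℕ)))
  have hV : ∀ Y, G Y ∈ (V : Filter (ℕ → ℕ)) := fun Y =>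
    (Ultrafilter.of_le _).trans (iInf_le _ Y) (Filter.mem_principal_self _)
  refine ⟨V, ?_, ?_, fun Y _ => ?_⟩
  · filter_upwards [hV []] with y hy
    exact hy.1
  · filter_upwards [hV []] with y hy
    obtain ⟨p, -, -, h2⟩ := hy.1
    rw [← h2]
    exact p.1.injective.injOn
  · filter_upwards [hV Y] with y hy
    exact hy.2

lemma map_cons_fix {g : Equiv.Perm ℕ} {B : List ℕ} (h : ∀ x ∈ B, g x = x) (d : ℕ) :
    (d :: B).map g = g d :: B := by
  rw [List.map_cons]
  congr 1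
  conv_rhs => rw [← List.map_id B]
  exact List.map_congr_left fun x hx => h x hx

/-- words evaluated at a map which fixes the points -/
lemma ev_fix {g : ℕ → ℕ} {X : List ℕ} {w : List (ℕ ⊕ ℕ)} (hw : ∀ x, Sum.inl x ∈ w → x ∈ X)
    (h : ∀ x ∈ X, g x = x) : ev g w = (ev id w).map g := by
  unfold ev
  rw [List.map_map]
  refine List.map_congr_left fun p hp => ?_
  rcases p with x | d
  · exact (h x (hw x hp)).symm
  · rfl

/-- the ultrafilter of (0.4) is realized -/
lemma real_of_conc (H : HSys M N) {X : List ℕ} {D : Finset ℕ} {V : Ultrafilter (ℕ → ℕ)}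
    (h : ∀ᶠ y in (V : Filter (ℕ → ℕ)), ∃ p ∈ H.K, (∀ x ∈ X, p.1 x = x) ∧ ⇑p.1 = y) :
    Real M X D V := by
  intro w hw
  refine tp_eq (h.mono ?_)
  rintro y ⟨p, hp, h1, rfl⟩
  rw [ev_fix hw.1 h1]
  exact H.aut p hp _

/-- (0.5) -/
lemma Fr.image (h : Fr H B D V) {p : Equiv.Perm ℕ × Equiv.Perm ℕ} (hp : p ∈ H.K)
    (hB : ∀ x ∈ B, p.1 x = x) : Fr H B D (V.map fun y d => p.1 (y d)) := by
  refine ⟨?_, fun X hX => ?_⟩
  · rw [Ultrafilter.coe_map, Filter.eventually_map]
    exact h.1.mono fun y hy a ha b hb hab => hy ha hb (p.1.injective hab)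
  · rw [Ultrafilter.coe_map, Filter.eventually_map]
    have hBi : ∀ x ∈ B, p.1.symm x = x := fun x hx => by
      rw [Equiv.symm_apply_eq, hB x hx]
    have h1 : B ⊆ X.map p.1.symm := fun x hx =>
      List.mem_map.2 ⟨x, hX hx, hBi x hx⟩
    refine (h.2 _ h1).mono fun y hy d hd hs => hy d hd fun n hn => ?_
    have h2 := (H.eqv p hp _ n).1 hn
    rw [map_cons_fix hB] at h2
    have h3 := hs h2
    rw [H.eqv p hp]
    have h4 : (X.map p.1.symm).map p.1 = X := by
      rw [List.map_map]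
      conv_rhs => rw [← List.map_id X]
      exact List.map_congr_left fun x _ => p.1.apply_symm_apply x
    rw [h4]
    exact h3

lemma tp_image (hM : FinLab M) (H : HSys M N) {V : Ultrafilter (ℕ → ℕ)}
    {p : Equiv.Perm ℕ × Equiv.Perm ℕ} (hp : p ∈ H.K) (w : List (ℕ ⊕ ℕ)) :
    tp M (V.map fun y d => p.1 (y d)) (w.map (Sum.map p.1 id)) = tp M V w := by
  refine tp_eq ?_
  rw [Ultrafilter.coe_map, Filter.eventually_map]
  refine (tp_spec hM V w).mono fun y hy => ?_
  rw [← hy, ← H.aut p hp (ev y w)]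
  congr 1
  unfold ev
  rw [List.map_map, List.map_map]
  refine List.map_congr_left fun q _ => ?_
  rcases q with x | d <;> rfl

/-! ## The base -/

/-- The base `B` separates the types, every type has a member with base `B`, and all types are tame. -/
structure Sep (H : HSys M N) (r : ℕ) (B : List ℕ) : Prop where
  uni : ∀ D : Finset ℕ, D.card ≤ r → ∀ V V' : Ultrafilter (ℕ → ℕ), FD H D V → FD H D V' →
    (∀ w, Wd {x | x ∈ B} D w → tp M V w = tp M V' w) → EqOn M D V V'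
  mem : ∀ D : Finset ℕ, D.card ≤ r → ∀ V : Ultrafilter (ℕ → ℕ), FD H D V →
    ∃ V', Fr H B D V' ∧ EqOn M D V V'
  tame : ∀ (D : Finset ℕ) (V : Ultrafilter (ℕ → ℕ)), FD H D V → Tame M D V

variable {r : ℕ}

lemma Sep.uni_real (S : Sep H r B) (hD : D.card ≤ r) {V V' : Ultrafilter (ℕ → ℕ)}
    (hV : FD H D V) (hV' : FD H D V') (h : Real M B D V) (h' : Real M B D V') : EqOn M D V V' :=
  S.uni D hD V V' hV hV' fun w hw => (h w hw).trans (h' w hw).symm

lemma Wd.sub_mono {X X' : List ℕ} {D D' : Finset ℕ} {w : List (ℕ ⊕ ℕ)}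
    (h : Wd {x | x ∈ X} D w) (h1 : X ⊆ X') (h2 : D ⊆ D') : Wd {x | x ∈ X'} D' w :=
  ⟨fun x hx => h1 (h.1 x hx), fun d hd => h2 (h.2 d hd)⟩

lemma Real.mono {X X' : List ℕ} (h : Real M X D V) (hX : X' ⊆ X) (hD : D' ⊆ D) :
    Real M X' D' V := fun w hw => h w (hw.sub_mono hX hD)

lemma Real.congr (h : Real M X D V) (h' : EqOn M D V U) : Real M X D U :=
  fun w hw => (h' w hw.2).symm.trans (h w hw)

/-- the values of a type with base `B` are invariant -/
lemma Sep.inv (hM : FinLab M) (S : Sep H r B) (hD : D.card ≤ r) (hV : Fr H B D V)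
    {p : Equiv.Perm ℕ × Equiv.Perm ℕ} (hp : p ∈ H.K) (hB : ∀ x ∈ B, p.1 x = x)
    {w : List (ℕ ⊕ ℕ)} (hw : ∀ d, Sum.inr d ∈ w → d ∈ D) :
    tp M V (w.map (Sum.map p.1 id)) = tp M V w := by
  have h1 := hV.image hp hB
  have h2 : EqOn M D (V.map fun y d => p.1 (y d)) V := by
    refine S.uni D hD _ _ h1.fd hV.fd fun w hw => ?_
    rw [← tp_image hM H (V := V) hp w]
    congr 1
    have e1 : w.map (Sum.map p.1 id) = w.map id := by
      refine List.map_congr_left fun q hq => ?_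
      rcases q with x | d
      · exact congrArg Sum.inl (hB x (hw.1 x hq))
      · rfl
    rw [e1, List.map_id]
  rw [← tp_image hM H (V := V) hp w]
  refine (h2 _ fun d hd => ?_).symm
  rw [List.mem_map] at hd
  obtain ⟨q, hq, hq'⟩ := hd
  rcases q with x | e
  · simp at hq'
  · have : e = d := by simpa using hq'
    rw [← this]
    exact hw e hq

/-- a mobile tuple has a type -/
lemma exists_real (H : HSys M N) {X : List ℕ} {D : Finset ℕ} (hD : Mob H X D) :
    ∃ V, Fr H X D V ∧ Real M X D V := by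
  obtain ⟨V, h1, h2⟩ := exists_fr H X X (fun _ h => h) D hD
  exact ⟨V, h2, real_of_conc H h1⟩

/-- UNI: the label of a mobile tuple -/
lemma Sep.real_of_mob (S : Sep H r B) (hD : D.card ≤ r) (hV : FD H D V) (hR : Real M B D V)
    (hX : B ⊆ X) (hmob : Mob H X D) : Real M X D V := by
  obtain ⟨V', h1, h2⟩ := exists_real H hmob
  exact h2.congr (S.uni_real hD h1.fd hV (h2.mono hX (Finset.Subset.refl _)) hR)

lemma wd_sub {X : Set ℕ} {Cc D : Finset ℕ} {w : List (ℕ ⊕ ℕ)} (hw : Wd X (Cc ∪ D) w) :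
    ∀ d, Sum.inr d ∈ sub Cc id w → d ∈ D := fun d hd =>
  (Finset.mem_union.1 (hw.2 d (sub_inr hd).1)).resolve_left (sub_inr hd).2

/-- (5.2) -/
theorem five_two (hM : FinLab M) (S : Sep H r B) {Cc : Finset ℕ} (hCD : Disjoint Cc D)
    (hX : B ⊆ X) (hC : Mob H X Cc) (hCr : Cc.card ≤ r) (hDr : D.card ≤ r) (hV : Fr H B D V)
    {VC : Ultrafilter (ℕ → ℕ)} (hVC : FD H Cc VC) (hR : Real M B Cc VC)
    {w : List (ℕ ⊕ ℕ)} (hw : Wd {x | x ∈ X} (Cc ∪ D) w) :
    tp M (prd Cc VC V) w = tp M V (sub Cc id w) := by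
  obtain ⟨V0, h1, h2⟩ := exists_fr H X X (fun _ h => h) Cc hC
  have h3 : Real M X Cc V0 := real_of_conc H h1
  have h4 : EqOn M Cc VC V0 := S.uni_real hCr hVC h2.fd hR (h3.mono hX (Finset.Subset.refl _))
  rw [prd_congr_left hM (S.tame _ _ hVC) (S.tame _ _ h2.fd) h4 hV.np hCD w hw.2]
  obtain ⟨x, hx, p, hp, hfix, rfl⟩ := ((tp_prd hM (D := Cc) (V := V0) (U := V) (w := w)).and h1).exists
  rw [← hx]
  have h5 : sub Cc p.1 w = (sub Cc id w).map (Sum.map p.1 id) := by
    unfold sub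
    rw [List.map_map]
    refine List.map_congr_left fun q hq => ?_
    rcases q with a | d
    · exact congrArg Sum.inl (hfix a (hw.1 a hq)).symm
    · simp only [Sum.elim_inr, Function.comp]
      split_ifs <;> rfl
  rw [h5]
  exact S.inv hM hDr hV hp (fun x hx => hfix x (hX hx)) (wd_sub hw)

lemma Ind.congr (hM : FinLab M) {A A' : Finset ℕ} {V V' : Ultrafilter (ℕ → ℕ)}
    (h : Ind M V A A') (hE : EqOn M (A ∪ A') V V') (hT : Tame M A V) (hT' : Tame M A V')
    (hN : NP A' V) (hd : Disjoint A A') : Ind M V' A A' := by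
  unfold Ind at h ⊢
  have h1 : EqOn M (A ∪ A') (prd A V V) (prd A V' V) :=
    prd_congr_left hM hT hT' (hE.mono Finset.subset_union_left) hN hd
  have h2 : EqOn M (A ∪ A') (prd A V' V) (prd A V' V') :=
    prd_congr_right hM (hE.mono Finset.subset_union_right) (Finset.Subset.refl _)
  exact hE.symm.trans (h.trans (h1.trans h2))

/-- independence from mobility -/
theorem ind_of_mob (hM : FinLab M) (S : Sep H r B) {A A' : Finset ℕ} (hd : Disjoint A A')
    (hr : (A ∪ A').card ≤ r) (hX : B ⊆ X) (hA : Mob H X A) (hA' : Mob H (B ++ A.toList) A')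
    (hV : FD H (A ∪ A') V) (hR : Real M B (A ∪ A') V) : Ind M V A A' := by
  have sA : A ⊆ A ∪ A' := Finset.subset_union_left
  have sA' : A' ⊆ A ∪ A' := Finset.subset_union_right
  have rA : A.card ≤ r := (Finset.card_le_card sA).trans hr
  have rA' : A'.card ≤ r := (Finset.card_le_card sA').trans hr
  obtain ⟨V', h1, h2⟩ := S.mem A' rA' V (hV.mono sA')
  have h3 : EqOn M (A ∪ A') (prd A V V) (prd A V V') :=
    prd_congr_right hM h2 (Finset.Subset.refl _)
  refine EqOn.trans ?_ h3.symm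
  refine S.uni _ hr _ _ hV ((hV.mono sA).prd h1.fd hd) fun w hw => ?_
  rw [hR w hw]
  have hw' : Wd {x | x ∈ X} (A ∪ A') w := hw.sub_mono hX (Finset.Subset.refl _)
  rw [five_two hM S hd hX hA rA rA' h1 (hV.mono sA)
    (hR.mono (fun _ h => h) sA) hw']
  have h4 : Real M (B ++ A.toList) A' V' := by
    refine S.real_of_mob rA' h1.fd ((hR.mono (fun _ h => h) sA').congr h2) ?_ hA'
    exact fun x hx => List.mem_append_left _ hx
  rw [h4]
  · congr 1
    unfold ev sub
    rw [List.map_map]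
    refine List.map_congr_left fun q _ => ?_
    rcases q with a | d
    · rfl
    · simp only [Sum.elim_inr, Function.comp]
      split_ifs <;> rfl
  · refine ⟨fun x hx => ?_, wd_sub hw⟩
    unfold sub at hx
    rw [List.mem_map] at hx
    obtain ⟨q, hq, hq'⟩ := hx
    rcases q with a | d
    · have : a = x := by simpa using hq'
      rw [← this]
      exact List.mem_append_left _ (hw.1 a hq)
    · simp only [Sum.elim_inr] at hq'
      split_ifs at hq' with h5
      have : d = x := by simpa using hq'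
      rw [← this]
      exact List.mem_append_right _ (Finset.mem_toList.2 h5)

end Pool.Agent.H41.S5
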