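import Pool.Agent.H41.S5.Comp
import Pool.Agent.H41.HI.Final

/-!
# (5.6): the swap
-/

set_option autoImplicit false

open Set Filter

namespace Pool.Agent.H41.S5

open Pool.Agent.H41.HI Pool.Agent.H41.RLH Pool.Agent.H75.HCI

variable {C : Type} {M : List ℕ → C}

section

variable {N : Subgroup (Equiv.Perm ℕ)} {H : HSys M N} {B X : List ℕ} {D D' : Finset ℕ}
  {V U : Ultrafilter (ℕ → ℕ)} {r : ℕ}

lemma comp_mob {u : ℕ} (hu : Mob H B {u}) {x : ℕ} (hx : x ∈ comp H r B u) :
    ¬ H.sup (x :: B) ⊆ H.sup B := by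
  have hx' : Relation.ReflTransGen (Adj H r B) u x := hx
  rcases Relation.ReflTransGen.cases_tail hx' with h | ⟨y, -, e, he, -, hxe⟩
  · rw [h]
    exact hu u (Finset.mem_singleton_self u)
  · exact he.1 x hxe

lemma comp_closed {u : ℕ} {e : Finset ℕ} (he : Edge H r B e) {x : ℕ} (hxe : x ∈ e)
    (hx : x ∈ comp H r B u) : ∀ y ∈ e, y ∈ comp H r B u := fun y hy =>
  Relation.ReflTransGen.tail hx ⟨e, he, hxe, hy⟩

/-- the facts on a pair of closed sets `P`, `Q` -/
lemma closed_pair (hM : FinLab M) (S : Sep H r B) {P Q Cc : Finset ℕ}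
    (hP : ∀ e, Edge H r B e → ∀ x ∈ e, x ∈ P → e ⊆ P)
    (hQ : ∀ e, Edge H r B e → ∀ x ∈ e, x ∈ Q → e ⊆ Q) (hPQ : Disjoint P Q)
    (hmob : Mob H B (P ∪ Q)) {D1 D2 : Finset ℕ} (h1 : D1 ⊆ P) (h2 : D2 ⊆ Q)
    (hC : Disjoint (P ∪ Q) Cc) (hr : (D1 ∪ D2).card + Cc.card ≤ r) (hV : FD H (D1 ∪ D2) V)
    (hR : Real M B (D1 ∪ D2) V) : Real M (B ++ Cc.toList) (D1 ∪ D2) V ∧ Ind M V D1 D2 := by
  classical
  have hD : D1 ∪ D2 ⊆ P ∪ Q := Finset.union_subset_union h1 h2
  constructor
  · by_contra hcon
    obtain ⟨D', k1, C', k2, ⟨d, hd⟩, ⟨c, hc⟩, k3, k4⟩ := claim54 hM S (hC.mono_left hD) hr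
      (hmob.mono hD) hV hR hcon
    have hE : Edge H r B (D' ∪ C') := by
      refine ⟨?_, ?_, k4⟩
      · intro x hx
        rcases Finset.mem_union.1 hx with h | h
        · exact hmob x (hD (k1 h))
        · exact k3 x h
      · have e1 := Finset.card_union_le D' C'
        have e2 := Finset.card_le_card k1
        have e3 := Finset.card_le_card k2
        omega
    have hdD : d ∈ P ∪ Q := hD (k1 hd)
    have hcC : c ∉ P ∪ Q := fun h => Finset.disjoint_left.1 hC h (k2 hc)
    have hd' : d ∈ D' ∪ C' := Finset.mem_union_left _ hd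
    have hc' : c ∈ D' ∪ C' := Finset.mem_union_right _ hc
    rcases Finset.mem_union.1 hdD with h | h
    · exact hcC (Finset.mem_union_left _ (hP _ hE d hd' h hc'))
    · exact hcC (Finset.mem_union_right _ (hQ _ hE d hd' h hc'))
  · by_contra hcon
    obtain ⟨E, k1, ⟨a, ha⟩, ⟨b, hb⟩, k4⟩ := min_dep hM S (hPQ.mono h1 h2) hV hR hcon
    rw [Finset.mem_inter] at ha hb
    have hE : Edge H r B E :=
      ⟨hmob.mono (k1.trans hD), (Finset.card_le_card k1).trans (by omega), k4⟩
    exact Finset.disjoint_left.1 hPQ (hP E hE a ha.1 (h1 ha.2) hb.1) (h2 hb.2)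

end

/-- STAR from a good base -/
theorem star_core {r : ℕ} (hM : FinLab M) (hAr : Ar r M)
    (hs : SmallE M (id : ℕ → ℕ) (univ : Set ℕ)) (H : HSys M (LFin M)) {B : List ℕ}
    (S : Sep H r B) {u : ℕ} (hu : Mob H B {u}) : False := by
  classical
  have hfin := fin_comp hM S hs hu
  let Sc : Finset ℕ := hfin.toFinset
  have hmemS : ∀ x, x ∈ Sc ↔ x ∈ comp H r B u := fun x => Set.Finite.mem_toFinset hfin
  have huS : u ∈ Sc := (hmemS u).2 Relation.ReflTransGen.refl
  have hmobS : Mob H B Sc := fun d hd => comp_mob hu ((hmemS d).1 hd)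
  have hP : ∀ e, Edge H r B e → ∀ x ∈ e, x ∈ Sc → e ⊆ Sc := fun e he x hxe hx y hy =>
    (hmemS y).2 (comp_closed he hxe ((hmemS x).1 hx) y hy)
  obtain ⟨p, hpK, hpB, -, hmove, hfree⟩ := exists_copy H B B (fun _ h => h) Sc hmobS
    (B ++ Sc.toList)
  have hpBi : ∀ x ∈ B, p.1.symm x = x := fun x hx => by
    rw [Equiv.symm_apply_eq, hpB x hx]
  set gS : Finset ℕ := Sc.image p.1 with hgS
  have hdis : Disjoint Sc gS := by
    rw [Finset.disjoint_left]
    intro x hx hx'
    obtain ⟨d, hd, rfl⟩ := Finset.mem_image.1 hx'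
    refine hfree d hd (H.mono _ _ fun z hz => ?_)
    rcases List.mem_cons.1 hz with rfl | hz
    · exact List.mem_append_right _ (Finset.mem_toList.2 hx)
    · exact List.mem_append_left _ hz
  have hmobG : Mob H B gS := by
    intro x hx
    obtain ⟨d, hd, rfl⟩ := Finset.mem_image.1 hx
    exact mob_image hpK hpB (hmobS d hd)
  have hQ : ∀ e, Edge H r B e → ∀ x ∈ e, x ∈ gS → e ⊆ gS := by
    intro e he x hxe hx y hy
    obtain ⟨d, hd, rfl⟩ := Finset.mem_image.1 hx
    have h1 : Edge H r B (e.image (p⁻¹).1) := he.image hM (inv_mem H hpK) hpBi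
    have h2 : d ∈ e.image (p⁻¹).1 :=
      Finset.mem_image.2 ⟨_, hxe, p.1.symm_apply_apply d⟩
    have h3 := hP _ h1 d h2 hd (Finset.mem_image_of_mem _ hy)
    exact Finset.mem_image.2 ⟨_, h3, p.1.apply_symm_apply y⟩
  have hmobU : Mob H B (Sc ∪ gS) := by
    intro x hx
    rcases Finset.mem_union.1 hx with h | h
    · exact hmobS x h
    · exact hmobG x h
  have hBout : ∀ x ∈ B, x ∉ Sc ∪ gS := fun x hx h => hmobU x h (H.mono _ _ fun z hz => by
    rcases List.mem_cons.1 hz with rfl | hz
    · exact hx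
    · exact hz)
  -- the swap
  let f : ℕ → ℕ := fun x => if x ∈ Sc then p.1 x else if x ∈ gS then p.1.symm x else x
  have fS : ∀ x ∈ Sc, f x = p.1 x := fun x hx => if_pos hx
  have fG : ∀ x ∈ gS, f x = p.1.symm x := fun x hx => by
    change (if x ∈ Sc then _ else _) = _
    rw [if_neg fun h => Finset.disjoint_left.1 hdis h hx, if_pos hx]
  have fO : ∀ x, x ∉ Sc ∪ gS → f x = x := fun x hx => by
    rw [Finset.mem_union, not_or] at hx
    change (if x ∈ Sc then _ else _) = _
    rw [if_neg hx.1, if_neg hx.2]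
  have fSG : ∀ x ∈ Sc, f x ∈ gS := fun x hx => by
    rw [fS x hx]
    exact Finset.mem_image_of_mem _ hx
  have fGS : ∀ x ∈ gS, f x ∈ Sc := fun x hx => by
    rw [fG x hx]
    obtain ⟨d, hd, rfl⟩ := Finset.mem_image.1 hx
    rw [p.1.symm_apply_apply]
    exact hd
  have hf : Function.Involutive f := by
    intro x
    by_cases h1 : x ∈ Sc
    · rw [fG _ (fSG x h1), fS x h1, p.1.symm_apply_apply]
    · by_cases h2 : x ∈ gS
      · rw [fS _ (fGS x h2), fG x h2, p.1.apply_symm_apply]
      · have h3 : x ∉ Sc ∪ gS := by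
          rw [Finset.mem_union, not_or]
          exact ⟨h1, h2⟩
        rw [fO x h3, fO x h3]
  have hfi : Function.Injective f := hf.injective
  have fB : ∀ x ∈ B, f x = x := fun x hx => fO x (hBout x hx)
  have hlab1 : ∀ l : List ℕ, (∀ x ∈ l, x ∈ B ∨ x ∈ Sc) → M (l.map f) = M l := by
    intro l hl
    rw [← H.aut p hpK l]
    congr 1
    refine List.map_congr_left fun x hx => ?_
    rcases hl x hx with h | h
    · rw [fB x h, hpB x h]
    · exact fS x h
  have hlab2 : ∀ l : List ℕ, (∀ x ∈ l, x ∈ B ∨ x ∈ gS) → M (l.map f) = M l := by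
    intro l hl
    rw [← H.aut _ (inv_mem H hpK) l]
    congr 1
    refine List.map_congr_left fun x hx => ?_
    rcases hl x hx with h | h
    · rw [fB x h]
      exact (hpBi x h).symm
    · exact fG x h
  -- short lists
  have hshort : ∀ l : List ℕ, l.length ≤ r → M (l.map f) = M l := by
    intro l hl
    set D1 : Finset ℕ := l.toFinset ∩ Sc with hD1
    set D2 : Finset ℕ := l.toFinset ∩ gS with hD2
    set Cc : Finset ℕ := l.toFinset \ (Sc ∪ gS) with hCc
    have s1 : D1 ⊆ Sc := Finset.inter_subset_right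
    have s2 : D2 ⊆ gS := Finset.inter_subset_right
    have hC : Disjoint (Sc ∪ gS) Cc := Finset.disjoint_sdiff
    have d12 : Disjoint D1 D2 := hdis.mono s1 s2
    have hD : D1 ∪ D2 = l.toFinset ∩ (Sc ∪ gS) := by
      rw [Finset.inter_union_distrib_left]
    have hcard : (D1 ∪ D2).card + Cc.card ≤ r := by
      rw [hD, hCc, Finset.card_inter_add_card_sdiff]
      exact (List.toFinset_card_le l).trans hl
    have sU : D1 ∪ D2 ⊆ Sc ∪ gS := Finset.union_subset_union s1 s2
    obtain ⟨V, k1, k2⟩ := exists_real H (hmobU.mono sU)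
    obtain ⟨m1, m2⟩ := closed_pair hM S hP hQ hdis hmobU s1 s2 hC hcard k1.fd k2
    -- the images
    set E1 : Finset ℕ := D1.image f with hE1
    set E2 : Finset ℕ := D2.image f with hE2
    have t1 : E1 ⊆ gS := by
      intro x hx
      obtain ⟨d, hd, rfl⟩ := Finset.mem_image.1 hx
      exact fSG d (s1 hd)
    have t2 : E2 ⊆ Sc := by
      intro x hx
      obtain ⟨d, hd, rfl⟩ := Finset.mem_image.1 hx
      exact fGS d (s2 hd)
    have hcardE : (E1 ∪ E2).card + Cc.card ≤ r := by
      have : (E1 ∪ E2).card = (D1 ∪ D2).card := by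
        rw [hE1, hE2, ← Finset.image_union]
        exact Finset.card_image_of_injective _ hfi
      omega
    have tU : E1 ∪ E2 ⊆ gS ∪ Sc := Finset.union_subset_union t1 t2
    obtain ⟨V', n1, n2⟩ := exists_real H (hmobU.mono (D' := E1 ∪ E2)
      (by rw [Finset.union_comm Sc gS]; exact tU))
    obtain ⟨q1, q2⟩ := closed_pair hM S hQ hP hdis.symm (by rw [Finset.union_comm]; exact hmobU)
      t1 t2 (by rw [Finset.union_comm]; exact hC) hcardE n1.fd n2
    set U : Ultrafilter (ℕ → ℕ) := V'.map fun y d => y (f d) with hU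
    have hmaps : MapsTo f (D1 ∪ D2 : Finset ℕ) (E1 ∪ E2 : Finset ℕ) := fun x hx => by
      rw [Finset.mem_coe] at hx ⊢
      rw [hE1, hE2, ← Finset.image_union]
      exact Finset.mem_image_of_mem _ hx
    have hUF : FD H (D1 ∪ D2) U := n1.fd.reindex hmaps hfi.injOn
    have hUI : Ind M U D1 D2 := (ind_reindex hM hfi.injOn d12).2 q2
    have c1 : D1.card ≤ r := by
      have := Finset.card_le_card (Finset.subset_union_left : D1 ⊆ D1 ∪ D2)
      omega
    have c2 : D2.card ≤ r := by
      have := Finset.card_le_card (Finset.subset_union_right : D2 ⊆ D1 ∪ D2)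
      omega
    have hm1 : MapsTo f D1 E1 := fun x hx => by
      rw [Finset.mem_coe] at hx ⊢
      exact Finset.mem_image_of_mem _ hx
    have hm2 : MapsTo f D2 E2 := fun x hx => by
      rw [Finset.mem_coe] at hx ⊢
      exact Finset.mem_image_of_mem _ hx
    have u1 : EqOn M D1 U V := by
      refine S.uni_real c1 (hUF.mono Finset.subset_union_left)
        (k1.fd.mono Finset.subset_union_left) ?_
        (k2.mono (fun _ h => h) Finset.subset_union_left)
      refine Real.reindex hM (n2.mono (fun _ h => h) Finset.subset_union_left) hm1 fB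
        fun l hl => hlab1 l fun x hx => ?_
      exact (hl x hx).imp id fun h => s1 h
    have u2 : EqOn M D2 U V := by
      refine S.uni_real c2 (hUF.mono Finset.subset_union_right)
        (k1.fd.mono Finset.subset_union_right) ?_
        (k2.mono (fun _ h => h) Finset.subset_union_right)
      refine Real.reindex hM (n2.mono (fun _ h => h) Finset.subset_union_right) hm2 fB
        fun l hl => hlab2 l fun x hx => ?_
      exact (hl x hx).imp id fun h => s2 h
    have hUV : EqOn M (D1 ∪ D2) U V := by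
      have w1 : EqOn M (D1 ∪ D2) U (prd D1 U U) := hUI
      have w2 : EqOn M (D1 ∪ D2) (prd D1 U U) (prd D1 U V) :=
        prd_congr_right hM u2 (Finset.Subset.refl _)
      have w3 : EqOn M (D1 ∪ D2) (prd D1 U V) (prd D1 V V) :=
        prd_congr_left hM (S.tame _ _ (hUF.mono Finset.subset_union_left))
          (S.tame _ _ (k1.fd.mono Finset.subset_union_left)) u1
          (k1.fd.mono Finset.subset_union_right).np d12
      have w4 : EqOn M (D1 ∪ D2) (prd D1 V V) V := EqOn.symm m2
      exact w1.trans (w2.trans (w3.trans w4))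
    -- the word of `l`
    let w : List (ℕ ⊕ ℕ) := l.map fun x => if x ∈ D1 ∪ D2 then Sum.inr x else Sum.inl x
    have hew : ev id w = l := by
      unfold ev
      rw [List.map_map]
      conv_rhs => rw [← List.map_id l]
      refine List.map_congr_left fun x _ => ?_
      simp only [Function.comp]
      split_ifs <;> rfl
    have hw : Wd {x | x ∈ B ++ Cc.toList} (D1 ∪ D2) w := by
      constructor
      · intro x hx
        obtain ⟨a, ha, ha'⟩ := List.mem_map.1 hx
        split_ifs at ha' with h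
        have h1 : a = x := by simpa using ha'
        subst h1
        refine List.mem_append_right _ (Finset.mem_toList.2 ?_)
        rw [hD] at h
        rw [hCc, Finset.mem_sdiff]
        refine ⟨List.mem_toFinset.2 ha, fun h2 => h ?_⟩
        exact Finset.mem_inter.2 ⟨List.mem_toFinset.2 ha, h2⟩
      · intro x hx
        obtain ⟨a, ha, ha'⟩ := List.mem_map.1 hx
        split_ifs at ha' with h
        have h1 : a = x := by simpa using ha'
        subst h1
        exact h
    have z1 : M l = tp M V w := by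
      rw [m1 w hw, hew]
    have z2 : M (l.map f) = tp M U w := by
      rw [hU, tp_reindex hM, q1 _ (wd_reindex hw hmaps), map_map_inl]
      congr 1
      unfold ev
      rw [List.map_map]
      refine List.map_congr_left fun x hx => ?_
      simp only [Function.comp]
      split_ifs with h
      · rfl
      · change f x = x
        refine fO x fun h2 => h ?_
        rw [hD]
        exact Finset.mem_inter.2 ⟨List.mem_toFinset.2 hx, h2⟩
    rw [z2, z1]
    exact hUV w hw.2
  have hall : ∀ l : List ℕ, M (l.map f) = M l := by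
    intro l
    rcases le_or_gt l.length r with h | h
    · exact hshort l h
    · exact hAr _ _ (by rw [List.length_map]; exact h) h
  let h : Equiv.Perm ℕ := hf.toPerm
  have hLF : h ∈ LFin M := by
    refine ⟨fun l => hall l, ((Sc ∪ gS).finite_toSet).subset fun x hx => ?_⟩
    by_contra hcon
    exact hx (fO x fun h => hcon (Finset.mem_coe.2 h))
  have hhK := H.ker h hLF
  obtain ⟨n, hn, hn'⟩ := Finset.not_subset.1 (hu u (Finset.mem_singleton_self u))
  have hn1 : n ∈ H.sup (Sc.toList ++ B) := H.mono _ _ (fun z hz => by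
    rcases List.mem_cons.1 hz with rfl | hz
    · exact List.mem_append_left _ (Finset.mem_toList.2 huS)
    · exact List.mem_append_right _ hz) hn
  have h1 := (H.eqv p hpK _ n).1 hn1
  have h2 : (Sc.toList ++ B).map p.1 = (Sc.toList ++ B).map h := by
    refine List.map_congr_left fun x hx => ?_
    rcases List.mem_append.1 hx with hx | hx
    · exact (fS x (Finset.mem_toList.1 hx)).symm
    · rw [hpB x hx]
      exact (fB x hx).symm
  rw [h2] at h1
  have h3 := (H.eqv (h, 1) hhK (Sc.toList ++ B) (p.2 n)).2 h1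
  refine hmove n hn1 hn' (H.mono _ _ (fun z hz => ?_) h3)
  rcases List.mem_append.1 hz with hz | hz
  · exact List.mem_append_right _ hz
  · exact List.mem_append_left _ hz

end Pool.Agent.H41.S5
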