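import Mathlib

/-!
# Types of tuples given by ultrafilters: words, values, products
-/

set_option autoImplicit false

open Set Filter

namespace Pool.Agent.H41.S5

variable {C : Type}

/-- finitely many labels of each length -/
def FinLab (M : List ℕ → C) : Prop := ∀ n : ℕ, {a | ∃ l : List ℕ, l.length = n ∧ M l = a}.Finite

/-- evaluation of a word: `inl x` is the point `x`, `inr d` is the coordinate `d` -/
def ev {ι : Type} (y : ι → ℕ) (w : List (ℕ ⊕ ι)) : List ℕ := w.map (Sum.elim id y)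

open Classical in
/-- the label of a word for almost all tuples -/
noncomputable def tp {ι : Type} (M : List ℕ → C) (V : Ultrafilter (ι → ℕ)) (w : List (ℕ ⊕ ι)) : C :=
  if h : ∃ a, ∀ᶠ y in (V : Filter (ι → ℕ)), M (ev y w) = a then h.choose else M []

lemma ev_length {ι : Type} (y : ι → ℕ) (w : List (ℕ ⊕ ι)) : (ev y w).length = w.length := by
  simp [ev]

lemma exists_tp {ι : Type} {M : List ℕ → C} (hM : FinLab M) (V : Ultrafilter (ι → ℕ))
    (w : List (ℕ ⊕ ι)) : ∃ a, ∀ᶠ y in (V : Filter (ι → ℕ)), M (ev y w) = a := by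
  have h1 : (⋃ a ∈ {a | ∃ l : List ℕ, l.length = w.length ∧ M l = a}, {y : ι → ℕ | M (ev y w) = a}) ∈ V := by
    have : (⋃ a ∈ {a | ∃ l : List ℕ, l.length = w.length ∧ M l = a},
        {y : ι → ℕ | M (ev y w) = a}) = univ := by
      rw [eq_univ_iff_forall]
      intro y
      rw [mem_iUnion₂]
      exact ⟨M (ev y w), ⟨ev y w, ev_length y w, rfl⟩, rfl⟩
    rw [this]
    exact Filter.univ_mem
  rw [Ultrafilter.finite_biUnion_mem_iff (hM w.length)] at h1
  obtain ⟨a, -, ha⟩ := h1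
  exact ⟨a, ha⟩

lemma tp_spec {ι : Type} {M : List ℕ → C} (hM : FinLab M) (V : Ultrafilter (ι → ℕ))
    (w : List (ℕ ⊕ ι)) : ∀ᶠ y in (V : Filter (ι → ℕ)), M (ev y w) = tp M V w := by
  have h := exists_tp hM V w
  unfold tp
  rw [dif_pos h]
  exact h.choose_spec

lemma tp_eq {ι : Type} {M : List ℕ → C} {V : Ultrafilter (ι → ℕ)}
    {w : List (ℕ ⊕ ι)} {a : C} (h : ∀ᶠ y in (V : Filter (ι → ℕ)), M (ev y w) = a) :
    tp M V w = a := by
  have h1 : ∃ a, ∀ᶠ y in (V : Filter (ι → ℕ)), M (ev y w) = a := ⟨a, h⟩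
  have h2 : ∀ᶠ y in (V : Filter (ι → ℕ)), M (ev y w) = tp M V w := by
    unfold tp
    rw [dif_pos h1]
    exact h1.choose_spec
  obtain ⟨y, hy1, hy2⟩ := (h.and h2).exists
  exact hy2.symm.trans hy1

lemma tp_eq_iff {ι : Type} {M : List ℕ → C} (hM : FinLab M) {V : Ultrafilter (ι → ℕ)}
    {w : List (ℕ ⊕ ι)} {a : C} :
    tp M V w = a ↔ ∀ᶠ y in (V : Filter (ι → ℕ)), M (ev y w) = a := by
  refine ⟨fun h => ?_, tp_eq⟩
  rw [← h]
  exact tp_spec hM V w

/-- reindexing -/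
lemma ev_reindex {ι κ : Type} (h : κ → ι) (y : ι → ℕ) (w : List (ℕ ⊕ κ)) :
    ev (fun d => y (h d)) w = ev y (w.map (Sum.map id h)) := by
  unfold ev
  rw [List.map_map]
  congr 1
  funext p
  cases p <;> rfl

lemma tp_reindex {ι κ : Type} {M : List ℕ → C} (hM : FinLab M) (h : κ → ι)
    (V : Ultrafilter (ι → ℕ)) (w : List (ℕ ⊕ κ)) :
    tp M (V.map fun y d => y (h d)) w = tp M V (w.map (Sum.map id h)) := by
  refine tp_eq ?_
  rw [Ultrafilter.coe_map, Filter.eventually_map]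
  refine (tp_spec hM V (w.map (Sum.map id h))).mono fun y hy => ?_
  rw [ev_reindex]
  exact hy

/-! ## Words with coordinates in `D` and points in `X` -/

/-- the word has its points in `X` and its coordinates in `D` -/
def Wd (X : Set ℕ) (D : Finset ℕ) (w : List (ℕ ⊕ ℕ)) : Prop :=
  (∀ x, Sum.inl x ∈ w → x ∈ X) ∧ ∀ d, Sum.inr d ∈ w → d ∈ D

lemma Wd.mono {X X' : Set ℕ} {D D' : Finset ℕ} {w : List (ℕ ⊕ ℕ)} (h : Wd X D w) (h1 : X ⊆ X')
    (h2 : D ⊆ D') : Wd X' D' w := ⟨fun x hx => h1 (h.1 x hx), fun d hd => h2 (h.2 d hd)⟩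

/-- the two types agree on `D` -/
def EqOn (M : List ℕ → C) (D : Finset ℕ) (V V' : Ultrafilter (ℕ → ℕ)) : Prop :=
  ∀ w : List (ℕ ⊕ ℕ), (∀ d, Sum.inr d ∈ w → d ∈ D) → tp M V w = tp M V' w

lemma EqOn.refl {M : List ℕ → C} {D : Finset ℕ} {V : Ultrafilter (ℕ → ℕ)} : EqOn M D V V :=
  fun _ _ => rfl

lemma EqOn.symm {M : List ℕ → C} {D : Finset ℕ} {V V' : Ultrafilter (ℕ → ℕ)} (h : EqOn M D V V') :
    EqOn M D V' V := fun w hw => (h w hw).symm

lemma EqOn.trans {M : List ℕ → C} {D : Finset ℕ} {V V' V'' : Ultrafilter (ℕ → ℕ)}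
    (h : EqOn M D V V') (h' : EqOn M D V' V'') : EqOn M D V V'' :=
  fun w hw => (h w hw).trans (h' w hw)

lemma EqOn.mono {M : List ℕ → C} {D D' : Finset ℕ} {V V' : Ultrafilter (ℕ → ℕ)}
    (h : EqOn M D V V') (hD : D' ⊆ D) : EqOn M D' V V' :=
  fun w hw => h w fun d hd => hD (hw d hd)

lemma ev_congr {D : Finset ℕ} {y y' : ℕ → ℕ} {w : List (ℕ ⊕ ℕ)} (hw : ∀ d, Sum.inr d ∈ w → d ∈ D)
    (h : ∀ d ∈ D, y d = y' d) : ev y w = ev y' w := by
  refine List.map_congr_left fun p hp => ?_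
  rcases p with x | d
  · rfl
  · exact h d (hw d hp)

/-! ## Products -/

/-- the tuple `x` on `D`, the tuple `y` elsewhere -/
def mix (D : Finset ℕ) (x y : ℕ → ℕ) : ℕ → ℕ := fun n => if n ∈ D then x n else y n

/-- the product: `x` from `V` on `D`, then `y` from `U` elsewhere -/
def prd (D : Finset ℕ) (V U : Ultrafilter (ℕ → ℕ)) : Ultrafilter (ℕ → ℕ) :=
  V.bind fun x => U.map (mix D x)

lemma prd_iff {D : Finset ℕ} {V U : Ultrafilter (ℕ → ℕ)} {P : (ℕ → ℕ) → Prop} :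
    (∀ᶠ p in (prd D V U : Filter (ℕ → ℕ)), P p) ↔
      ∀ᶠ x in (V : Filter (ℕ → ℕ)), ∀ᶠ y in (U : Filter (ℕ → ℕ)), P (mix D x y) := Iff.rfl

/-- substitution of points for the coordinates in `D` -/
def sub (D : Finset ℕ) (x : ℕ → ℕ) (w : List (ℕ ⊕ ℕ)) : List (ℕ ⊕ ℕ) :=
  w.map (Sum.elim Sum.inl fun n => if n ∈ D then Sum.inl (x n) else Sum.inr n)

lemma ev_mix (D : Finset ℕ) (x y : ℕ → ℕ) (w : List (ℕ ⊕ ℕ)) :
    ev (mix D x y) w = ev y (sub D x w) := by
  unfold ev sub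
  rw [List.map_map]
  refine List.map_congr_left fun p _ => ?_
  rcases p with a | n
  · rfl
  · simp only [Sum.elim_inr, Function.comp, mix]
    split_ifs <;> rfl

lemma sub_inr {D : Finset ℕ} {x : ℕ → ℕ} {w : List (ℕ ⊕ ℕ)} {d : ℕ}
    (h : Sum.inr d ∈ sub D x w) : Sum.inr d ∈ w ∧ d ∉ D := by
  unfold sub at h
  rw [List.mem_map] at h
  obtain ⟨p, hp, h1⟩ := h
  rcases p with a | n
  · simp at h1
  · simp only [Sum.elim_inr] at h1
    split_ifs at h1 with h2
    have h3 : n = d := by simpa using h1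
    rw [← h3]
    exact ⟨hp, h2⟩

lemma tp_prd {M : List ℕ → C} (hM : FinLab M) {D : Finset ℕ} {V U : Ultrafilter (ℕ → ℕ)}
    {w : List (ℕ ⊕ ℕ)} :
    ∀ᶠ x in (V : Filter (ℕ → ℕ)), tp M U (sub D x w) = tp M (prd D V U) w := by
  have h := tp_spec hM (prd D V U) w
  rw [prd_iff] at h
  refine h.mono fun x hx => tp_eq ?_
  refine hx.mono fun y hy => ?_
  rw [← ev_mix]
  exact hy

/-- an equivalent factor in the last place -/
lemma prd_congr_right {M : List ℕ → C} (hM : FinLab M) {D D' E : Finset ℕ}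
    {V U U' : Ultrafilter (ℕ → ℕ)} (h : EqOn M D' U U') (hE : E ⊆ D ∪ D') :
    EqOn M E (prd D V U) (prd D V U') := by
  intro w hw
  obtain ⟨x, hx1, hx2⟩ := ((tp_prd hM (D := D) (V := V) (U := U) (w := w)).and
    (tp_prd hM (D := D) (V := V) (U := U') (w := w))).exists
  rw [← hx1, ← hx2]
  refine h _ fun d hd => ?_
  obtain ⟨h1, h2⟩ := sub_inr hd
  exact (Finset.mem_union.1 (hE (hw d h1))).resolve_left h2

/-- the product depends only on the coordinates in `D` of the first factor -/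
lemma prd_congr_mix {M : List ℕ → C} (hM : FinLab M) {D D' E : Finset ℕ}
    {V U : Ultrafilter (ℕ → ℕ)} (h : ∀ d ∈ E, (d ∈ D ↔ d ∈ D')) :
    EqOn M E (prd D V U) (prd D' V U) := by
  intro w hw
  refine (tp_eq ?_).symm
  have h1 := tp_spec hM (prd D V U) w
  rw [prd_iff] at h1 ⊢
  refine h1.mono fun x hx => hx.mono fun y hy => ?_
  rw [← hy]
  congr 1
  refine ev_congr hw fun d hd => ?_
  unfold mix
  by_cases hd' : d ∈ D
  · rw [if_pos hd', if_pos ((h d hd).1 hd')]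
  · rw [if_neg hd', if_neg fun h2 => hd' ((h d hd).2 h2)]

/-- nonprincipal and injective on `D` -/
def NP (D : Finset ℕ) (V : Ultrafilter (ℕ → ℕ)) : Prop :=
  (∀ᶠ y in (V : Filter (ℕ → ℕ)), InjOn y D) ∧ ∀ x : ℕ, ∀ᶠ y in (V : Filter (ℕ → ℕ)), ∀ d ∈ D, y d ≠ x

lemma NP.mono {D D' : Finset ℕ} {V : Ultrafilter (ℕ → ℕ)} (h : NP D V) (hD : D' ⊆ D) : NP D' V :=
  ⟨h.1.mono fun _ hy => hy.mono hD, fun x => (h.2 x).mono fun _ hy d hd => hy d (hD hd)⟩

lemma NP.prd {D D' : Finset ℕ} {V U : Ultrafilter (ℕ → ℕ)} (hV : NP D V) (hU : NP D' U)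
    (hd : Disjoint D D') : NP (D ∪ D') (prd D V U) := by
  constructor
  · rw [prd_iff]
    refine hV.1.mono fun x hx => ?_
    have h1 : ∀ᶠ y in (U : Filter (ℕ → ℕ)), ∀ c ∈ D, ∀ d ∈ D', y d ≠ x c := by
      rw [Filter.eventually_all_finset]
      exact fun c _ => hU.2 (x c)
    filter_upwards [hU.1, h1] with y hy hy' a ha b hb hab
    have ha' : a ∈ D ∨ a ∉ D ∧ a ∈ D' := by
      by_cases h : a ∈ D
      · exact Or.inl h
      · exact Or.inr ⟨h, (Finset.mem_union.1 ha).resolve_left h⟩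
    have hb' : b ∈ D ∨ b ∉ D ∧ b ∈ D' := by
      by_cases h : b ∈ D
      · exact Or.inl h
      · exact Or.inr ⟨h, (Finset.mem_union.1 hb).resolve_left h⟩
    unfold mix at hab
    rcases ha' with ha' | ⟨ha1, ha2⟩ <;> rcases hb' with hb' | ⟨hb1, hb2⟩
    · rw [if_pos ha', if_pos hb'] at hab
      exact hx ha' hb' hab
    · rw [if_pos ha', if_neg hb1] at hab
      exact absurd hab.symm (hy' a ha' b hb2)
    · rw [if_neg ha1, if_pos hb'] at hab
      exact absurd hab (hy' b hb' a ha2)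
    · rw [if_neg ha1, if_neg hb1] at hab
      exact hy ha2 hb2 hab
  · intro z
    rw [prd_iff]
    refine (hV.2 z).mono fun x hx => (hU.2 z).mono fun y hy d hd' => ?_
    unfold mix
    split_ifs with h
    · exact hx d h
    · exact hy d ((Finset.mem_union.1 hd').resolve_left h)

/-- `V` is tame on `D` -/
def Tame (M : List ℕ → C) (D : Finset ℕ) (V : Ultrafilter (ℕ → ℕ)) : Prop :=
  ∀ (D' : Finset ℕ) (U : Ultrafilter (ℕ → ℕ)), Disjoint D D' → NP D' U →
    EqOn M (D ∪ D') (prd D V U) (prd D' U V)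

/-- an equivalent tame factor in the first place -/
lemma prd_congr_left {M : List ℕ → C} (hM : FinLab M) {D D' : Finset ℕ}
    {V V' U : Ultrafilter (ℕ → ℕ)} (hV : Tame M D V) (hV' : Tame M D V') (h : EqOn M D V V')
    (hU : NP D' U) (hd : Disjoint D D') : EqOn M (D ∪ D') (prd D V U) (prd D V' U) :=
  (hV D' U hd hU).trans
    ((prd_congr_right hM h (by rw [Finset.union_comm])).trans (hV' D' U hd hU).symm)

/-- associativity -/
lemma prd_assoc {A B : Finset ℕ} (V U W : Ultrafilter (ℕ → ℕ)) (hd : Disjoint A B) :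
    prd (A ∪ B) (prd A V U) W = prd A V (prd B U W) := by
  refine Ultrafilter.coe_injective (Filter.ext fun s => ?_)
  change (∀ᶠ p in (prd (A ∪ B) (prd A V U) W : Filter (ℕ → ℕ)), p ∈ s) ↔
    (∀ᶠ p in (prd A V (prd B U W) : Filter (ℕ → ℕ)), p ∈ s)
  rw [prd_iff, prd_iff, prd_iff]
  have h : ∀ x y z : ℕ → ℕ, mix (A ∪ B) (mix A x y) z = mix A x (mix B y z) := by
    intro x y z
    funext n
    unfold mix
    by_cases h1 : n ∈ A
    · simp [h1]
    · by_cases h2 : n ∈ B <;> simp [h1, h2]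
  refine Filter.eventually_congr (Filter.Eventually.of_forall fun x => ?_)
  rw [prd_iff]
  refine Filter.eventually_congr (Filter.Eventually.of_forall fun y => ?_)
  refine Filter.eventually_congr (Filter.Eventually.of_forall fun z => ?_)
  rw [h]

/-! ## Independence inside a type -/

/-- `A` and `B` are independent in `V` -/
def Ind (M : List ℕ → C) (V : Ultrafilter (ℕ → ℕ)) (A B : Finset ℕ) : Prop :=
  EqOn M (A ∪ B) V (prd A V V)

section ind

variable {M : List ℕ → C} (hM : FinLab M) {V : Ultrafilter (ℕ → ℕ)} {A B A' B' D : Finset ℕ}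

include hM

lemma Ind.symm (h : Ind M V A B) (hA : Tame M A V) (hB : NP B V) (hd : Disjoint A B) :
    Ind M V B A := by
  unfold Ind at h ⊢
  rw [Finset.union_comm]
  exact h.trans (hA B V hd hB)

lemma Ind.mono (h : Ind M V A B) (hd : Disjoint A B) (hA : A' ⊆ A) (hB : B' ⊆ B) :
    Ind M V A' B' := by
  unfold Ind at h ⊢
  refine (h.mono (Finset.union_subset_union hA hB)).trans (prd_congr_mix hM fun d hd' => ?_)
  constructor
  · intro h1
    rcases Finset.mem_union.1 hd' with h2 | h2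
    · exact h2
    · exact absurd (hB h2) (Finset.disjoint_left.1 hd h1)
  · exact fun h1 => hA h1

lemma ind_empty_left : Ind M V ∅ B := by
  unfold Ind
  intro w hw
  refine (tp_eq ?_).symm
  rw [prd_iff]
  refine Filter.Eventually.of_forall fun x => ?_
  have h1 : ∀ y, mix ∅ x y = y := by
    intro y
    funext n
    simp [mix]
  simp only [h1]
  exact tp_spec hM V w

lemma ind_empty_right : Ind M V A ∅ := by
  unfold Ind
  intro w hw
  rw [Finset.union_empty] at hw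
  refine (tp_eq ?_).symm
  rw [prd_iff]
  refine (tp_spec hM V w).mono fun x hx => Filter.Eventually.of_forall fun y => ?_
  rw [← hx]
  congr 1
  refine ev_congr hw fun d hd => ?_
  unfold mix
  rw [if_pos hd]

lemma Ind.contract (h1 : Ind M V A B) (h2 : Ind M V (A ∪ B) D) (hD : Tame M D V)
    (hAV : NP A V) (hBV : NP B V) (hABV : NP (A ∪ B) V)
    (d1 : Disjoint A B) (d2 : Disjoint (A ∪ B) D) : Ind M V A (B ∪ D) := by
  have hAD : Disjoint A D := d2.mono_left Finset.subset_union_left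
  have hBD : Disjoint B D := d2.mono_left Finset.subset_union_right
  unfold Ind at h1 h2 ⊢
  -- V = V_AB x V_D = V_D x V_AB = V_D x (V_A x V_B) = (V_A x V_B) x V_D = V_A x (V_B x V_D)
  have e1 : EqOn M ((A ∪ B) ∪ D) (prd (A ∪ B) V V) (prd D V V) := by
    have := hD (A ∪ B) V d2.symm hABV
    rw [Finset.union_comm] at this
    exact this.symm
  have e2 : EqOn M ((A ∪ B) ∪ D) (prd D V V) (prd D V (prd A V V)) :=
    prd_congr_right hM h1 (by rw [Finset.union_comm])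
  have e3 : EqOn M ((A ∪ B) ∪ D) (prd D V (prd A V V)) (prd (A ∪ B) (prd A V V) V) := by
    have := hD (A ∪ B) (prd A V V) d2.symm (hAV.prd hBV d1)
    rw [Finset.union_comm] at this
    exact this
  rw [prd_assoc V V V d1] at e3
  have e4 : EqOn M (B ∪ D) (prd B V V) V := by
    have h3 : EqOn M (B ∪ D) V (prd (A ∪ B) V V) :=
      h2.mono (Finset.union_subset_union Finset.subset_union_right (Finset.Subset.refl _))
    refine (h3.trans (prd_congr_mix hM fun d hd => ?_)).symm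
    rw [Finset.mem_union]
    constructor
    · rintro (h4 | h4)
      · rcases Finset.mem_union.1 hd with h5 | h5
        · exact h5
        · exact absurd h5 (Finset.disjoint_left.1 hAD h4)
      · exact h4
    · exact Or.inr
  have e5 : EqOn M ((A ∪ B) ∪ D) (prd A V (prd B V V)) (prd A V V) :=
    prd_congr_right hM e4 (by rw [Finset.union_assoc])
  rw [← Finset.union_assoc]
  exact h2.trans (e1.trans (e2.trans (e3.trans e5)))

/-- four blocks -/
lemma Ind.four {A1 A2 B1 B2 : Finset ℕ} (hT : ∀ E, E ⊆ (A1 ∪ B1) ∪ (A2 ∪ B2) → Tame M E V)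
    (hN : NP ((A1 ∪ B1) ∪ (A2 ∪ B2)) V)
    (d1 : Disjoint A1 B1) (d2 : Disjoint A2 B2) (d3 : Disjoint (A1 ∪ B1) (A2 ∪ B2))
    (h1 : Ind M V A1 B1) (h2 : Ind M V A2 B2) (h3 : Ind M V (A1 ∪ B1) (A2 ∪ B2)) :
    Ind M V (A1 ∪ A2) (B1 ∪ B2) := by
  have sA1 : A1 ⊆ (A1 ∪ B1) ∪ (A2 ∪ B2) := by
    intro x hx; simp [hx]
  have sB1 : B1 ⊆ (A1 ∪ B1) ∪ (A2 ∪ B2) := by
    intro x hx; simp [hx]
  have sA2 : A2 ⊆ (A1 ∪ B1) ∪ (A2 ∪ B2) := by
    intro x hx; simp [hx]
  have sB2 : B2 ⊆ (A1 ∪ B1) ∪ (A2 ∪ B2) := by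
    intro x hx; simp [hx]
  have u2 : ∀ {x y : Finset ℕ}, x ⊆ (A1 ∪ B1) ∪ (A2 ∪ B2) → y ⊆ (A1 ∪ B1) ∪ (A2 ∪ B2) →
      x ∪ y ⊆ (A1 ∪ B1) ∪ (A2 ∪ B2) := fun hx hy => Finset.union_subset hx hy
  have dA1A2 : Disjoint A1 A2 := d3.mono Finset.subset_union_left Finset.subset_union_left
  have dA1B2 : Disjoint A1 B2 := d3.mono Finset.subset_union_left Finset.subset_union_right
  have dB1A2 : Disjoint B1 A2 := d3.mono Finset.subset_union_right Finset.subset_union_left
  have dB1B2 : Disjoint B1 B2 := d3.mono Finset.subset_union_right Finset.subset_union_right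
  -- I(B1, A1 ∪ A2 ∪ B2)
  have k1 : Ind M V B1 (A1 ∪ (A2 ∪ B2)) := by
    refine Ind.contract hM (h1.symm hM (hT _ sA1) (hN.mono sB1) d1) ?_ (hT _ (u2 sA2 sB2))
      (hN.mono sB1) (hN.mono sA1) (hN.mono (u2 sB1 sA1)) d1.symm ?_
    · rw [Finset.union_comm B1 A1]
      exact h3
    · rw [Finset.union_comm B1 A1]
      exact d3
  have k2 : Ind M V (A1 ∪ (A2 ∪ B2)) B1 := by
    refine k1.symm hM (hT _ sB1) (hN.mono (u2 sA1 (u2 sA2 sB2))) ?_
    rw [Finset.disjoint_union_right, Finset.disjoint_union_right]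
    exact ⟨d1.symm, dB1A2, dB1B2⟩
  -- I(B2, A2 ∪ A1)
  have k3 : Ind M V B2 (A2 ∪ A1) := by
    refine Ind.contract hM (h2.symm hM (hT _ sA2) (hN.mono sB2) d2) ?_ (hT _ sA1)
      (hN.mono sB2) (hN.mono sA2) (hN.mono (u2 sB2 sA2)) d2.symm ?_
    · rw [Finset.union_comm B2 A2]
      have h4 := h3.symm hM (hT _ (u2 sA1 sB1)) (hN.mono (u2 sA2 sB2)) d3
      exact h4.mono hM d3.symm (Finset.Subset.refl _) Finset.subset_union_left
    · rw [Finset.disjoint_union_left]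
      exact ⟨dA1B2.symm, dA1A2.symm⟩
  have k4 : Ind M V (A1 ∪ A2) B2 := by
    have := k3.symm hM (hT _ sB2) (hN.mono (u2 sA2 sA1)) (by
      rw [Finset.disjoint_union_right]
      exact ⟨d2.symm, dA1B2.symm⟩)
    rwa [Finset.union_comm A2 A1] at this
  have k5 : Ind M V (A1 ∪ A2) (B2 ∪ B1) := by
    refine Ind.contract hM k4 ?_ (hT _ sB1) (hN.mono (u2 sA1 sA2)) (hN.mono sB2)
      (hN.mono (u2 (u2 sA1 sA2) sB2)) ?_ ?_
    · rw [Finset.union_assoc]
      exact k2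
    · rw [Finset.disjoint_union_left]
      exact ⟨dA1B2, d2⟩
    · rw [Finset.disjoint_union_left, Finset.disjoint_union_left]
      exact ⟨⟨d1, dB1A2.symm⟩, dB1B2.symm⟩
  rwa [Finset.union_comm B2 B1] at k5

end ind

end Pool.Agent.H41.S5
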